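import Pool.Agent.Helper340_sync.Defs

/-!
Auxiliary facts: deciding finitely many closed facts on an open set, good times, and the
admissible bump perturbations.
-/

open Set MeasureTheory Filter Topology

namespace H340Sync

/-! ### Deciding finitely many closed facts on an open set -/

theorem decide_facts {Z ι : Type*} [TopologicalSpace Z] [Finite ι] (F : ι → Set Z) (U : Set Z)
    (hU : IsOpen U) (hne : U.Nonempty) (hF : ∀ i, IsOpen (U \ F i)) :
    ∃ U' ⊆ U, IsOpen U' ∧ U'.Nonempty ∧ ∀ i, U' ⊆ F i ∨ Disjoint U' (F i) := by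
  classical
  have := Fintype.ofFinite ι
  have key : ∀ s : Finset ι, ∃ U' ⊆ U, IsOpen U' ∧ U'.Nonempty ∧
      ∀ i ∈ s, U' ⊆ F i ∨ Disjoint U' (F i) := by
    intro s
    induction s using Finset.induction_on with
    | empty => exact ⟨U, Subset.rfl, hU, hne, by simp⟩
    | insert i s _ ih =>
      obtain ⟨U', h1, h2, h3, h4⟩ := ih
      by_cases h : U' ⊆ F i
      · refine ⟨U', h1, h2, h3, fun j hj => ?_⟩
        rcases Finset.mem_insert.1 hj with rfl | hj
        · exact Or.inl h
        · exact h4 j hj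
      · obtain ⟨z, hz, hzF⟩ := not_subset.1 h
        refine ⟨U' ∩ (U \ F i), inter_subset_left.trans h1, h2.inter (hF i),
          ⟨z, hz, h1 hz, hzF⟩, fun j hj => ?_⟩
        rcases Finset.mem_insert.1 hj with rfl | hj
        · right
          rw [Set.disjoint_left]
          exact fun x hx => hx.2.2
        · rcases h4 j hj with h5 | h5
          · exact Or.inl (inter_subset_left.trans h5)
          · exact Or.inr (h5.mono_left inter_subset_left)
  obtain ⟨U', h1, h2, h3, h4⟩ := key Finset.univ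
  exact ⟨U', h1, h2, h3, fun i => h4 i (Finset.mem_univ _)⟩

/-! ### Level sets of curves with nonzero speed, good times -/

theorem countable_level {W : Type*} [NormedAddCommGroup W] [NormedSpace ℝ W] {h h' : ℝ → W}
    {J : Set ℝ} (hd : ∀ t ∈ J, HasDerivAt h (h' t) t) (hne : ∀ t ∈ J, h' t ≠ 0) (v : W) :
    {t | t ∈ J ∧ h t = v}.Countable := by
  refine IsLindelof.countable (HereditarilyLindelofSpace.isLindelof _) ?_
  rw [discreteTopology_subtype_iff]
  rintro t ⟨htJ, htv⟩
  have h1 := (hd t htJ).eventually_ne (c := v) (hne t htJ)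
  rw [← Filter.empty_mem_iff_bot, Filter.mem_inf_principal]
  filter_upwards [h1] with z hz hz2
  exact hz hz2.2

theorem good_time {W ι : Type*} [NormedAddCommGroup W] [NormedSpace ℝ W] [Finite ι]
    (g : ι → ℝ → W) (hg : ∀ i, Continuous (g i)) {h h' : ℝ → W} {t0 r : ℝ} (hr : 0 < r)
    (hd : ∀ t ∈ Metric.ball t0 r, HasDerivAt h (h' t) t)
    (hne : ∀ t ∈ Metric.ball t0 r, h' t ≠ 0) :
    ∃ t ∈ Metric.ball t0 r, ∀ i, ∀ᵐ u ∂(volume.restrict (uIoc (0 : ℝ) 1)), g i u ≠ h t := by
  borelize W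
  set μ : Measure ℝ := volume.restrict (uIoc (0 : ℝ) 1) with hμ
  set D : Set W := ⋃ i, {v | 0 < μ {u | g i u = v}} with hD
  have hDc : D.Countable := by
    refine countable_iUnion fun i => ?_
    exact Measure.countable_meas_level_set_pos (hg i).measurable
  have hAc : (⋃ v ∈ D, {t | t ∈ Metric.ball t0 r ∧ h t = v}).Countable :=
    hDc.biUnion fun v _ => countable_level hd hne v
  have hnot : ¬ Metric.ball t0 r ⊆ ⋃ v ∈ D, {t | t ∈ Metric.ball t0 r ∧ h t = v} := by
    intro hsub
    have h1 : volume (Metric.ball t0 r) = 0 := measure_mono_null hsub (hAc.measure_zero _)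
    have h2 := Metric.measure_ball_pos volume t0 hr
    exact h2.ne' h1
  obtain ⟨t, ht, htn⟩ := not_subset.1 hnot
  refine ⟨t, ht, fun i => ?_⟩
  rw [ae_iff]
  simp only [ne_eq, not_not]
  by_contra hcon
  apply htn
  refine mem_biUnion (x := h t) ?_ ⟨ht, rfl⟩
  rw [hD]
  exact mem_iUnion.2 ⟨i, pos_iff_ne_zero.2 hcon⟩

/-! ### Bounded Lipschitz maps -/

/-- bounded and Lipschitz -/
def BL {X W : Type*} [NormedAddCommGroup X] [NormedAddCommGroup W] (g : X → W) : Prop :=
  ∃ K : ℝ, 0 ≤ K ∧ (∀ x, ‖g x‖ ≤ K) ∧ ∀ x y, ‖g x - g y‖ ≤ K * ‖x - y‖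

theorem BL.sum {X W ι : Type*} [NormedAddCommGroup X] [NormedAddCommGroup W] (s : Finset ι)
    {g : ι → X → W} (h : ∀ i ∈ s, BL (g i)) : BL (fun x => ∑ i ∈ s, g i x) := by
  classical
  induction s using Finset.induction_on with
  | empty => exact ⟨0, le_rfl, by simp, by simp⟩
  | insert i s hi ih =>
    obtain ⟨K1, h0, h1, h2⟩ := h i (Finset.mem_insert_self _ _)
    obtain ⟨K2, h3, h4, h5⟩ := ih fun j hj => h j (Finset.mem_insert_of_mem hj)
    refine ⟨K1 + K2, by positivity, fun x => ?_, fun x y => ?_⟩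
    · simp only
      rw [Finset.sum_insert hi]
      exact (norm_add_le _ _).trans (add_le_add (h1 x) (h4 x))
    · simp only
      rw [Finset.sum_insert hi, Finset.sum_insert hi, add_sub_add_comm, add_mul]
      exact (norm_add_le _ _).trans (add_le_add (h2 x y) (h5 x y))

theorem BL.pi {X ι : Type*} {W : ι → Type*} [Fintype ι] [NormedAddCommGroup X]
    [∀ i, NormedAddCommGroup (W i)] {g : X → ∀ i, W i} (h : ∀ i, BL (fun x => g x i)) : BL g := by
  choose K h0 h1 h2 using h
  refine ⟨∑ i, K i, Finset.sum_nonneg fun i _ => h0 i, fun x => ?_, fun x y => ?_⟩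
  · rw [pi_norm_le_iff_of_nonneg (Finset.sum_nonneg fun i _ => h0 i)]
    exact fun i => (h1 i x).trans (Finset.single_le_sum (fun i _ => h0 i) (Finset.mem_univ i))
  · rw [pi_norm_le_iff_of_nonneg (mul_nonneg (Finset.sum_nonneg fun i _ => h0 i) (norm_nonneg _))]
    refine fun i => (h2 i x y).trans (mul_le_mul_of_nonneg_right ?_ (norm_nonneg _))
    exact Finset.single_le_sum (fun i _ => h0 i) (Finset.mem_univ i)

theorem BL.comp_clm {X Y W : Type*} [NormedAddCommGroup X] [NormedAddCommGroup Y]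
    [NormedSpace ℝ X] [NormedSpace ℝ Y] [NormedAddCommGroup W] {g : Y → W} (h : BL g)
    (l : X →L[ℝ] Y) : BL (fun x => g (l x)) := by
  obtain ⟨K, h0, h1, h2⟩ := h
  refine ⟨K + K * ‖l‖, by positivity, fun x => (h1 _).trans ?_, fun x y => (h2 _ _).trans ?_⟩
  · have : 0 ≤ K * ‖l‖ := by positivity
    linarith
  · rw [← map_sub]
    have h3 := mul_le_mul_of_nonneg_left (l.le_opNorm (x - y)) h0
    have h4 : 0 ≤ K * ‖x - y‖ := by positivity
    nlinarith

theorem BL.smul_const {X W : Type*} [NormedAddCommGroup X] [NormedAddCommGroup W]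
    [NormedSpace ℝ W] {g : X → ℝ} (h : BL g) (w : W) : BL (fun x => g x • w) := by
  obtain ⟨K, h0, h1, h2⟩ := h
  refine ⟨K * ‖w‖, by positivity, fun x => ?_, fun x y => ?_⟩
  · rw [norm_smul]
    exact mul_le_mul_of_nonneg_right (h1 x) (norm_nonneg _)
  · rw [← sub_smul, norm_smul]
    have := mul_le_mul_of_nonneg_right (h2 x y) (norm_nonneg w)
    linarith

/-! ### Bump functions -/

section bump

variable {W : Type*} [NormedAddCommGroup W] [NormedSpace ℝ W] [FiniteDimensional ℝ W]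

/-- The bump function of radius `1 / (n + 1)` at `ξ`. -/
noncomputable def bumpAt (ξ : W) (n : ℕ) : ContDiffBump ξ where
  rIn := 1 / (2 * (n + 1))
  rOut := 1 / (n + 1)
  rIn_pos := by positivity
  rIn_lt_rOut := by
    have : (0 : ℝ) < n + 1 := by positivity
    exact one_div_lt_one_div_of_lt this (by linarith)

theorem bumpAt_BL (ξ : W) (n : ℕ) : BL (fun ζ => bumpAt ξ n ζ) := by
  obtain ⟨C, hC⟩ := ContDiff.lipschitzWith_of_hasCompactSupport (𝕂 := ℝ)
    (bumpAt ξ n).hasCompactSupport ((bumpAt ξ n).contDiff (n := 1)) one_ne_zero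
  refine ⟨max 1 C, by positivity, fun x => ?_, fun x y => ?_⟩
  · rw [Real.norm_eq_abs, abs_of_nonneg (bumpAt ξ n).nonneg]
    exact (bumpAt ξ n).le_one.trans (le_max_left _ _)
  · have := hC.dist_le_mul x y
    rw [dist_eq_norm, dist_eq_norm] at this
    exact this.trans (mul_le_mul_of_nonneg_right (le_max_right _ _) (norm_nonneg _))

theorem bumpAt_tendsto [DecidableEq W] (ξ ζ : W) :
    Tendsto (fun n => bumpAt ξ n ζ) atTop (𝓝 (if ζ = ξ then (1 : ℝ) else 0)) := by
  split_ifs with h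
  · subst h
    refine tendsto_const_nhds.congr fun n => ?_
    rw [(bumpAt ζ n).one_of_mem_closedBall (Metric.mem_closedBall_self (bumpAt ζ n).rIn_pos.le)]
  · have hd : 0 < dist ζ ξ := dist_pos.2 h
    have h1 := tendsto_one_div_add_atTop_nhds_zero_nat (𝕜 := ℝ)
    have h2 := h1.eventually (gt_mem_nhds hd)
    refine tendsto_const_nhds.congr' ?_
    filter_upwards [h2] with n hn
    rw [(bumpAt ξ n).zero_of_le_dist]
    exact hn.le

end bump

namespace Network

variable {N : Network} {V : N.NT → Type} [∀ θ, NormedAddCommGroup (V θ)]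
  [∀ θ, NormedSpace ℝ (V θ)]

instance {θ : N.NT} (c d : N.Node θ) : Finite (N.InIso c d) :=
  inferInstanceAs (Finite (∀ a, N.In c a ≃ N.In d a))

noncomputable instance {θ : N.NT} (c d : N.Node θ) : Fintype (N.InIso c d) := Fintype.ofFinite _

/-- composition of input isomorphisms -/
def InIso.trans {θ : N.NT} {c d e : N.Node θ} (β : N.InIso c d) (γ : N.InIso d e) :
    N.InIso c e := fun a => (β a).trans (γ a)

/-- inverse of an input isomorphism -/
def InIso.symm {θ : N.NT} {c d : N.Node θ} (β : N.InIso c d) : N.InIso d c :=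
  fun a => (β a).symm

/-- identity -/
def InIso.refl {θ : N.NT} (c : N.Node θ) : N.InIso c c := fun _ => Equiv.refl _

/-- coordinate map -/
noncomputable def prj (θ : N.NT) (c : N.Node θ) : N.State V →L[ℝ] V θ :=
  (ContinuousLinearMap.proj c).comp (ContinuousLinearMap.proj (R := ℝ)
    (φ := fun θ => N.Node θ → V θ) θ)

@[simp] theorem prj_apply (θ : N.NT) (c : N.Node θ) (x : N.State V) : prj θ c x = x θ c := rfl

theorem norm_coord_le (x : N.State V) (θ : N.NT) (c : N.Node θ) : ‖x θ c‖ ≤ ‖x‖ :=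
  (norm_le_pi_norm (x θ) c).trans (norm_le_pi_norm x θ)

theorem norm_le_of_coord {x : N.State V} {K : ℝ} (hK : 0 ≤ K) (h : ∀ θ c, ‖x θ c‖ ≤ K) :
    ‖x‖ ≤ K := by
  rw [pi_norm_le_iff_of_nonneg hK]
  intro θ
  rw [pi_norm_le_iff_of_nonneg hK]
  exact h θ

/-- the input state as a continuous linear map -/
noncomputable def inputL {θ : N.NT} (c : N.Node θ) : N.State V →L[ℝ] N.InSp V c :=
  (prj θ c).prod (ContinuousLinearMap.pi fun a => ContinuousLinearMap.pi fun e =>
    prj (N.src a) (N.inTail e))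

theorem inputL_apply {θ : N.NT} (c : N.Node θ) (x : N.State V) : inputL c x = inputState c x := rfl

/-- the pull back as a continuous linear map -/
noncomputable def pullL {θ : N.NT} {c d : N.Node θ} (β : N.InIso c d) :
    N.InSp V d →L[ℝ] N.InSp V c :=
  (ContinuousLinearMap.fst ℝ _ _).prod (ContinuousLinearMap.pi fun a =>
    ContinuousLinearMap.pi fun e => (ContinuousLinearMap.proj (R := ℝ)
      (φ := fun _ : N.In d a => V (N.src a)) (β a e)).comp
      ((ContinuousLinearMap.proj (R := ℝ) (φ := fun a => N.In d a → V (N.src a)) a).comp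
        (ContinuousLinearMap.snd ℝ _ _)))

theorem pullL_apply {θ : N.NT} {c d : N.Node θ} (β : N.InIso c d) (ζ : N.InSp V d) :
    pullL β ζ = pull β ζ := rfl

theorem pull_trans {θ : N.NT} {c d e : N.Node θ} (β : N.InIso c d) (γ : N.InIso d e)
    (ζ : N.InSp V e) : pull (β.trans γ) ζ = pull β (pull γ ζ) := rfl

theorem pull_refl {θ : N.NT} (c : N.Node θ) (ζ : N.InSp V c) : pull (InIso.refl c) ζ = ζ := rfl

theorem pull_symm {θ : N.NT} {c d : N.Node θ} (β : N.InIso c d) (ζ : N.InSp V c)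
    (ζ' : N.InSp V d) (h : pull β ζ' = ζ) : pull β.symm ζ = ζ' := by
  subst h
  refine Prod.ext rfl ?_
  funext a e
  change ζ'.2 a (β a ((β a).symm e)) = ζ'.2 a e
  rw [Equiv.apply_symm_apply]

variable [∀ θ, FiniteDimensional ℝ (V θ)]

/-- component maps of the bump perturbation -/
noncomputable def bnF (ξ : ∀ θ (c : N.Node θ), N.InSp V c) (z : N.State V) (n : ℕ)
    (θ : N.NT) (d : N.Node θ) (ζ : N.InSp V d) : V θ :=
  ∑ c : N.Node θ, ∑ β : N.InIso c d, (bumpAt (ξ θ c) n (pull β ζ)) • z θ c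

/-- the bump perturbation -/
noncomputable def bn (ξ : ∀ θ (c : N.Node θ), N.InSp V c) (z : N.State V) (n : ℕ)
    (x : N.State V) : N.State V := fun θ d => bnF ξ z n θ d (inputState d x)

open Classical in
/-- the limit of the bump perturbations -/
noncomputable def blim (ξ : ∀ θ (c : N.Node θ), N.InSp V c) (z : N.State V)
    (x : N.State V) : N.State V := fun θ d =>
  ∑ c : N.Node θ, ∑ β : N.InIso c d, (if pull β (inputState d x) = ξ θ c then (1 : ℝ) else 0) •
    z θ c

theorem bn_components (ξ : ∀ θ (c : N.Node θ), N.InSp V c) (z : N.State V) (n : ℕ) :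
    IsComponents (bn ξ z n) (bnF ξ z n) := by
  refine ⟨fun _ _ _ => rfl, ?_⟩
  intro θ c d β ζ
  unfold bnF
  refine Finset.sum_congr rfl fun c1 _ => ?_
  refine (Fintype.sum_equiv ⟨fun γ => γ.trans β, fun γ => γ.trans β.symm, ?_, ?_⟩ _ _ ?_).symm
  · intro γ
    funext a
    refine Equiv.ext fun e => ?_
    change (β a).symm (β a (γ a e)) = γ a e
    rw [Equiv.symm_apply_apply]
  · intro γ
    funext a
    refine Equiv.ext fun e => ?_
    change (β a) ((β a).symm (γ a e)) = γ a e
    rw [Equiv.apply_symm_apply]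
  · intro γ
    rfl

theorem bnF_contDiff (ξ : ∀ θ (c : N.Node θ), N.InSp V c) (z : N.State V) (n : ℕ)
    (θ : N.NT) (d : N.Node θ) : ContDiff ℝ 1 (bnF ξ z n θ d) := by
  unfold bnF
  refine ContDiff.sum fun c _ => ContDiff.sum fun β _ => ?_
  refine ContDiff.smul ?_ contDiff_const
  have h : ContDiff ℝ 1 (fun ζ : N.InSp V d => pull β ζ) := (pullL (V := V) β).contDiff
  exact ((bumpAt (ξ θ c) n).contDiff (n := 1)).comp h

theorem bn_adm (ξ : ∀ θ (c : N.Node θ), N.InSp V c) (z : N.State V) (n : ℕ) :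
    AdmissibleC1 (bn ξ z n) :=
  ⟨bnF ξ z n, bn_components ξ z n, bnF_contDiff ξ z n⟩

theorem bn_contDiff (ξ : ∀ θ (c : N.Node θ), N.InSp V c) (z : N.State V) (n : ℕ) :
    ContDiff ℝ 1 (bn ξ z n) := by
  rw [contDiff_pi]
  intro θ
  rw [contDiff_pi]
  intro d
  have h : ContDiff ℝ 1 (fun x : N.State V => inputState d x) := (inputL (V := V) d).contDiff
  exact (bnF_contDiff ξ z n θ d).comp h

theorem bn_BL (ξ : ∀ θ (c : N.Node θ), N.InSp V c) (z : N.State V) (n : ℕ) :
    BL (bn ξ z n) := by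
  refine BL.pi fun θ => BL.pi fun d => ?_
  refine BL.sum _ fun c _ => BL.sum _ fun β _ => ?_
  exact ((bumpAt_BL (ξ θ c) n).comp_clm ((pullL β).comp (inputL d))).smul_const _

theorem bn_tendsto (ξ : ∀ θ (c : N.Node θ), N.InSp V c) (z : N.State V) (x : N.State V) :
    Tendsto (fun n => bn ξ z n x) atTop (𝓝 (blim ξ z x)) := by
  classical
  rw [tendsto_pi_nhds]
  intro θ
  rw [tendsto_pi_nhds]
  intro d
  refine tendsto_finsetSum _ fun c _ => tendsto_finsetSum _ fun β _ => ?_
  have := (bumpAt_tendsto (ξ θ c) (pull β (inputState d x))).smul_const (z θ c)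
  convert this

/-- uniform bound -/
theorem bn_bound (ξ : ∀ θ (c : N.Node θ), N.InSp V c) (z : N.State V) :
    ∃ K : ℝ, 0 ≤ K ∧ ∀ n x, ‖bn ξ z n x‖ ≤ K := by
  refine ⟨∑ θ : N.NT, ∑ d : N.Node θ, ∑ c : N.Node θ, ∑ _β : N.InIso c d, ‖z θ c‖, ?_, ?_⟩
  · positivity
  · intro n x
    refine norm_le_of_coord (by positivity) fun θ d => ?_
    have h1 : ‖bn ξ z n x θ d‖ ≤ ∑ c : N.Node θ, ∑ _β : N.InIso c d, ‖z θ c‖ := by
      refine (norm_sum_le _ _).trans (Finset.sum_le_sum fun c _ => ?_)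
      refine (norm_sum_le _ _).trans (Finset.sum_le_sum fun β _ => ?_)
      rw [norm_smul, Real.norm_eq_abs, abs_of_nonneg (bumpAt (ξ θ c) n).nonneg]
      exact mul_le_of_le_one_left (norm_nonneg _) (bumpAt (ξ θ c) n).le_one
    refine h1.trans ?_
    refine (Finset.single_le_sum (f := fun d => ∑ c : N.Node θ, ∑ _β : N.InIso c d, ‖z θ c‖)
      (fun _ _ => by positivity) (Finset.mem_univ d)).trans ?_
    exact Finset.single_le_sum
      (f := fun θ => ∑ d : N.Node θ, ∑ c : N.Node θ, ∑ _β : N.InIso c d, ‖z θ c‖)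
      (fun _ _ => by positivity) (Finset.mem_univ θ)

end Network

end H340Sync
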