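import Mathlib

/-!
# Coupled cell networks, admissible vector fields, hyperbolic periodic orbits, rigid synchrony

Definitions for `MP_e1010f_an` (the rigid synchrony conjecture).
-/

open Set

namespace H340Sync

/-- A network.  The type equivalence relations on nodes and on arrows are recorded by sorting the
nodes and the arrows according to their types: `NT` is the finite set of node types, `AT` the
finite set of arrow types, `Node θ` the finite set of nodes of type `θ` and `Arrow a` the finite
set of arrows of type `a`.  Arrows of equal type have tails of equal type (`src a`) and heads of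
equal type (`tgt a`). -/
structure Network where
  /-- node types -/
  NT : Type
  /-- arrow types -/
  AT : Type
  /-- the nodes of each type -/
  Node : NT → Type
  /-- the arrows of each type -/
  Arrow : AT → Type
  /-- type of the tails of the arrows of a given type -/
  src : AT → NT
  /-- type of the heads of the arrows of a given type -/
  tgt : AT → NT
  /-- the tail of an arrow -/
  tail : ∀ {a : AT}, Arrow a → Node (src a)
  /-- the head of an arrow -/
  head : ∀ {a : AT}, Arrow a → Node (tgt a)
  [fNT : Fintype NT]
  [fAT : Fintype AT]
  [fNode : ∀ θ, Fintype (Node θ)]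
  [fArrow : ∀ a, Fintype (Arrow a)]

namespace Network

attribute [instance] Network.fNT Network.fAT Network.fNode Network.fArrow

variable (N : Network)

/-- `N.In c a` is the set of arrows of type `a` whose head is the node `c` (of type `θ`); the
input set `I(c)` is the disjoint union of these sets over all arrow types `a`. -/
def In {θ : N.NT} (c : N.Node θ) (a : N.AT) : Type :=
  {e : N.Arrow a // (⟨N.tgt a, N.head e⟩ : Σ θ, N.Node θ) = ⟨θ, c⟩}

noncomputable instance {θ : N.NT} (c : N.Node θ) (a : N.AT) : Fintype (N.In c a) :=
  @Fintype.ofFinite _ (Subtype.finite (α := N.Arrow a))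

/-- The tail of an input arrow. -/
def inTail {θ : N.NT} {c : N.Node θ} {a : N.AT} (e : N.In c a) : N.Node (N.src a) :=
  N.tail e.1

/-- An input isomorphism `I(c) → I(d)`: a bijection preserving the types of the arrows. -/
def InIso {θ : N.NT} (c d : N.Node θ) : Type := ∀ a, N.In c a ≃ N.In d a

/-- Relations on nodes of equal type. -/
def Rel : Type := ∀ θ, N.Node θ → N.Node θ → Prop

/-- A relation is balanced if related nodes have an input isomorphism which matches arrows with
related tails. -/
def Balanced {N : Network} (R : N.Rel) : Prop :=
  ∀ θ (c d : N.Node θ), R θ c d →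
    ∃ β : N.InIso c d, ∀ (a : N.AT) (e : N.In c a), R (N.src a) (N.inTail e) (N.inTail (β a e))

variable (V : N.NT → Type) [∀ θ, NormedAddCommGroup (V θ)] [∀ θ, NormedSpace ℝ (V θ)]

/-- The total state space `P`, the product of the state spaces `V θ` of the nodes of type `θ`. -/
abbrev State : Type := ∀ θ, N.Node θ → V θ

/-- The space of input states of a node: its own state and the states at the tails of its input
arrows. -/
abbrev InSp {θ : N.NT} (c : N.Node θ) : Type := V θ × (∀ a, N.In c a → V (N.src a))

variable {N V}

/-- The input state of the node `c`. -/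
def inputState {θ : N.NT} (c : N.Node θ) (x : N.State V) : N.InSp V c :=
  (x θ c, fun _ e => x _ (N.inTail e))

/-- Pull back of input states along an input isomorphism. -/
def pull {θ : N.NT} {c d : N.Node θ} (β : N.InIso c d) (ζ : N.InSp V d) : N.InSp V c :=
  (ζ.1, fun a e => ζ.2 a (β a e))

/-- The maps `F θ c` are components of the vector field `f`: the `c` component of `f` is a
function of the input state of `c`, and for every input isomorphism `β : I(c) → I(d)` the
function of `d` is the function of `c` after relabelling the tail variables by `β`. -/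
def IsComponents (f : N.State V → N.State V)
    (F : ∀ (θ : N.NT) (c : N.Node θ), N.InSp V c → V θ) : Prop :=
  (∀ x θ c, f x θ c = F θ c (inputState c x)) ∧
    ∀ (θ : N.NT) (c d : N.Node θ) (β : N.InIso c d) (ζ : N.InSp V d), F θ d ζ = F θ c (pull β ζ)

/-- Admissible vector fields. -/
def Admissible (f : N.State V → N.State V) : Prop :=
  ∃ F, IsComponents f F

/-- Admissible vector fields whose component maps are of class `C^1`. -/
def AdmissibleC1 (f : N.State V → N.State V) : Prop :=
  ∃ F, IsComponents f F ∧ ∀ θ c, ContDiff ℝ 1 (F θ c)

end Network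

section ODE

variable {P : Type*} [NormedAddCommGroup P] [NormedSpace ℝ P] [FiniteDimensional ℝ P]

/-- `x` is a non-constant periodic solution of `x' = f(x)` and `T > 0` is a period. -/
def IsPeriodicOrbit (f : P → P) (x : ℝ → P) (T : ℝ) : Prop :=
  0 < T ∧ (∀ t, HasDerivAt x (f (x t)) t) ∧ (∀ t, x (t + T) = x t) ∧ ∃ s t, x s ≠ x t

/-- The periodic solution `x` with period `T` is hyperbolic: for the solution `Φ` of the
variational equation `Φ' = Df(x(t)) Φ`, `Φ(0) = 1`, the only eigenvalue of `Φ(T)` (Floquet
multiplier) on the unit circle is `1`, and it is a simple root of the characteristic polynomial. -/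
def IsHyperbolic (f : P → P) (x : ℝ → P) (T : ℝ) : Prop :=
  ∃ Φ : ℝ → P →L[ℝ] P, Φ 0 = ContinuousLinearMap.id ℝ P ∧
    (∀ t, HasDerivAt Φ ((fderiv ℝ f (x t)).comp (Φ t)) t) ∧
    (LinearMap.charpoly ((Φ T : P →L[ℝ] P) : P →ₗ[ℝ] P)).rootMultiplicity 1 = 1 ∧
    ∀ μ : ℂ, ‖μ‖ = 1 →
      Polynomial.aeval μ (LinearMap.charpoly ((Φ T : P →L[ℝ] P) : P →ₗ[ℝ] P)) = 0 → μ = 1

end ODE

namespace Network

variable {N : Network} {V : N.NT → Type} [∀ θ, NormedAddCommGroup (V θ)]
  [∀ θ, NormedSpace ℝ (V θ)]

/-- The synchrony pattern of `x`: two nodes (of equal type) are related if their states agree at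
all times. -/
def syncPattern (x : ℝ → N.State V) : N.Rel := fun θ c d => ∀ t, x t θ c = x t θ d

/-- The synchrony pattern of the periodic orbit `x` (period `T`) of the vector field `f` is rigid:
there are `ε, δ > 0` such that for every admissible perturbation `p` of class `C^1` with
`|p| < ε` and `|Dp| < ε` on the whole state space, every periodic orbit `z` of `f + p` with a
period within `δ` of `T` and within distance `δ` of `x` on `[0, T]` has `z_c = z_d` (at all times)
whenever `x_c = x_d` (at all times).

Only perturbations `p` with `C^1` component maps and with a small `C^1` norm on the whole state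
space are tested, so this is implied by every notion of rigidity that tests at least these
vector fields `f + p`; see `Rigid.of_literal` for the wording of the problem. -/
def Rigid (f : N.State V → N.State V) (x : ℝ → N.State V) (T : ℝ) : Prop :=
  ∃ ε > 0, ∃ δ > 0, ∀ p : N.State V → N.State V, ContDiff ℝ 1 p → AdmissibleC1 p →
    (∀ u, ‖p u‖ < ε) → (∀ u, ‖fderiv ℝ p u‖ < ε) →
    ∀ (z : ℝ → N.State V) (S : ℝ), IsPeriodicOrbit (fun u => f u + p u) z S → |S - T| < δ →
      (∀ t ∈ Icc (0 : ℝ) T, ‖z t - x t‖ < δ) →
      ∀ θ (c d : N.Node θ), syncPattern x θ c d → syncPattern z θ c d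

end Network

end H340Sync
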