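import Pool.Agent.Helper340_sync.Persist
import Pool.Agent.Helper340_sync.Defs

/-!
The family of perturbed periodic orbits, for a metric space of perturbations.
-/

open Set MeasureTheory Filter Topology intervalIntegral

namespace H340Sync

section

variable {P : Type*} [NormedAddCommGroup P] [NormedSpace ℝ P] [FiniteDimensional ℝ P]

theorem deriv_scale {W : Type*} [NormedAddCommGroup W] [NormedSpace ℝ W] {x : ℝ → W} {w : W}
    {T t : ℝ} (h : HasDerivAt x w (T * t)) : HasDerivAt (fun t => x (T * t)) (T • w) t := by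
  have h1 : HasDerivAt (fun t : ℝ => T * t) T t := by
    simpa using (hasDerivAt_id t).const_mul T
  exact h.scomp t h1

theorem orb_lip (O : Orb P) {M : ℝ} (hM : ∀ t, ‖O.f (O.x t)‖ ≤ M) (a b : ℝ) :
    ‖O.x a - O.x b‖ ≤ O.T * M * |a - b| := by
  have h := (convex_univ (𝕜 := ℝ) (E := ℝ)).norm_image_sub_le_of_norm_hasDerivWithin_le
    (f := O.x) (f' := fun t => O.T • O.f (O.x t)) (C := O.T * M) (x := b) (y := a)
    (fun t _ => (O.hx t).hasDerivWithinAt) (fun t _ => by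
      rw [norm_smul, Real.norm_eq_abs, abs_of_pos O.hT]
      exact mul_le_mul_of_nonneg_left (hM t) O.hT.le) (mem_univ _) (mem_univ _)
  rw [Real.norm_eq_abs] at h
  exact h

theorem scale_est {s T t ρ : ℝ} (hT : 0 < T) (hs : T / 2 ≤ s) (hsT : |s - T| ≤ ρ)
    (ht : t ∈ Icc (0 : ℝ) T) : |s⁻¹ * t - T⁻¹ * t| ≤ 2 * ρ / T := by
  have hs0 : 0 < s := by linarith
  have hρ : 0 ≤ ρ := (abs_nonneg _).trans hsT
  have e : s⁻¹ * t - T⁻¹ * t = (T - s) * t / (s * T) := by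
    field_simp
  rw [e, abs_div, abs_mul, abs_of_nonneg ht.1, abs_of_pos (mul_pos hs0 hT),
    div_le_div_iff₀ (mul_pos hs0 hT) hT]
  have h4 : |T - s| ≤ ρ := by rw [abs_sub_comm]; exact hsT
  have h5 : |T - s| * t ≤ ρ * T := mul_le_mul h4 ht.2 ht.1 hρ
  have h7 : |T - s| * t * T ≤ ρ * T * T := mul_le_mul_of_nonneg_right h5 hT.le
  have h8 : ρ * T * T ≤ 2 * ρ * (s * T) := by
    have : 0 ≤ ρ * T * (2 * s - T) := by
      apply mul_nonneg (by positivity); linarith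
    nlinarith
  linarith

/-- A normalised orbit close to the given one is a periodic orbit close to the given one. -/
theorem orbit_of_NS (O : Orb P) {M ρ δ a0 b0 : ℝ} (hM : ∀ t, ‖O.f (O.x t)‖ ≤ M)
    (hρT : ρ ≤ O.T / 2) (hρδ : ρ * (1 + 2 * M) < δ) (hρδ' : ρ < δ) {x : ℝ → P}
    (hxx : ∀ t, x t = O.x (O.T⁻¹ * t)) (hγ : 2 * ρ < ‖x a0 - x b0‖) {p : P → P} {y : ℝ → P}
    {s : ℝ} (h : O.NS ρ p y s) :
    IsPeriodicOrbit (fun u => O.f u + p u) (fun t => y (s⁻¹ * t)) s ∧ |s - O.T| < δ ∧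
      ∀ t ∈ Icc (0 : ℝ) O.T, ‖y (s⁻¹ * t) - x t‖ < δ := by
  obtain ⟨h1, h2, h3, h4, h5⟩ := h
  have hT := O.hT
  have hs : O.T / 2 ≤ s := by
    have h6 := abs_le.1 (h5.trans hρT)
    linarith [h6.1]
  have hs0 : 0 < s := by linarith
  refine ⟨⟨hs0, fun t => ?_, fun t => ?_, s * (O.T⁻¹ * a0), s * (O.T⁻¹ * b0), ?_⟩,
    h5.trans_lt hρδ', ?_⟩
  · have h6 := deriv_scale (T := s⁻¹) (t := t) (h1 (s⁻¹ * t))
    rw [smul_smul, inv_mul_cancel₀ hs0.ne', one_smul] at h6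
    exact h6
  · simp only
    rw [mul_add, inv_mul_cancel₀ hs0.ne', h2]
  · simp only
    rw [← mul_assoc, inv_mul_cancel₀ hs0.ne', one_mul, ← mul_assoc, inv_mul_cancel₀ hs0.ne',
      one_mul]
    intro heq
    have e1 := h4 (O.T⁻¹ * a0)
    have e2 := h4 (O.T⁻¹ * b0)
    rw [← hxx] at e1 e2
    rw [heq] at e1
    have e3 : x a0 - x b0 = (y (O.T⁻¹ * b0) - x b0) - (y (O.T⁻¹ * b0) - x a0) := by abel
    have e4 : ‖x a0 - x b0‖ ≤ ρ + ρ := by
      rw [e3]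
      exact (norm_sub_le _ _).trans (add_le_add e2 e1)
    linarith
  · intro t ht
    have e1 := h4 (s⁻¹ * t)
    have e2 := orb_lip O hM (s⁻¹ * t) (O.T⁻¹ * t)
    have e3 := scale_est hT hs h5 ht
    have hM0 : 0 ≤ M := (norm_nonneg _).trans (hM 0)
    have e4 : ‖O.x (s⁻¹ * t) - O.x (O.T⁻¹ * t)‖ ≤ 2 * M * ρ := by
      refine e2.trans ((mul_le_mul_of_nonneg_left e3 (by positivity)).trans (le_of_eq ?_))
      field_simp
    rw [← hxx] at e4
    have e5 : y (s⁻¹ * t) - x t = (y (s⁻¹ * t) - O.x (s⁻¹ * t)) + (O.x (s⁻¹ * t) - x t) := by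
      abel
    rw [e5]
    refine (norm_add_le _ _).trans_lt ?_
    linarith

theorem family (O : Orb P) {Q : Type*} [PseudoMetricSpace Q] (ev : Q → P → P) (q0 : Q)
    (hev0 : ∀ u, ev q0 u = 0) (hC1 : ∀ q, ContDiff ℝ 1 (ev q))
    (hd : ∀ q q' u, ‖ev q u - ev q' u‖ ≤ dist q q')
    (hd' : ∀ q u, ‖fderiv ℝ (ev q) u‖ ≤ dist q q0) :
    ∃ C ρ0 : ℝ, 0 < C ∧ 0 < ρ0 ∧ ρ0 ≤ O.T / 2 ∧ ∀ ρ, 0 < ρ → ρ ≤ ρ0 → ∃ ε1, 0 < ε1 ∧
      ∃ (Y : Q → ℝ → P) (S : Q → ℝ),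
        (∀ q, dist q q0 ≤ ε1 → O.NS ρ (ev q) (Y q) (S q)) ∧
        (∀ q, dist q q0 ≤ ε1 → 0 < S q) ∧
        (∀ q q', dist q q0 ≤ ε1 → dist q' q0 ≤ ε1 → ∀ t,
          ‖Y q t - Y q' t‖ ≤ C * ∫ u in (0 : ℝ)..1, ‖ev q (Y q' u) - ev q' (Y q' u)‖) ∧
        (∀ q, dist q q0 ≤ ε1 → ∀ t, ‖Y q t - O.x t‖ ≤ C * dist q q0) ∧
        ContinuousOn (fun z : Q × ℝ => Y z.1 z.2) {z | dist z.1 q0 < ε1} := by
  obtain ⟨C, ρ0, hC, hρ0, hρ0T, hpers⟩ := O.persist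
  refine ⟨C, ρ0, hC, hρ0, hρ0T, fun ρ hρ hρρ => ?_⟩
  obtain ⟨ε0, hε0, hex, hlip⟩ := hpers ρ hρ hρρ
  have hsm : ∀ q, dist q q0 ≤ ε0 → Orb.Small ε0 (ev q) := by
    intro q hq
    refine ⟨hC1 q, fun z => ?_, fun z => (hd' q z).trans hq⟩
    have := (hd q q0 z).trans hq
    rwa [hev0, sub_zero] at this
  have hex' : ∀ q, ∃ (y : ℝ → P) (s : ℝ), dist q q0 ≤ ε0 → O.NS ρ (ev q) y s := by
    intro q
    by_cases hq : dist q q0 ≤ ε0
    · obtain ⟨y, s, h⟩ := hex _ (hsm q hq)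
      exact ⟨y, s, fun _ => h⟩
    · exact ⟨fun _ => 0, 0, fun h => absurd h hq⟩
  choose Y S hYS using hex'
  have hint : ∀ (q q' : Q) (y : ℝ → P),
      ∫ u in (0 : ℝ)..1, ‖ev q (y u) - ev q' (y u)‖ ≤ dist q q' := by
    intro q q' y
    have h := intervalIntegral.norm_integral_le_of_norm_le_const (a := 0) (b := 1)
      (f := fun u => ‖ev q (y u) - ev q' (y u)‖) (C := dist q q') (fun u _ => by
        rw [norm_norm]; exact hd q q' (y u))
    rw [sub_zero, abs_one, mul_one] at h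
    exact (le_abs_self _).trans h
  have hL : ∀ q q', dist q q0 ≤ ε0 → dist q' q0 ≤ ε0 → ∀ t,
      ‖Y q t - Y q' t‖ ≤ C * ∫ u in (0 : ℝ)..1, ‖ev q (Y q' u) - ev q' (Y q' u)‖ :=
    fun q q' hq hq' t =>
      (hlip _ _ _ _ _ _ (hsm q hq) (hsm q' hq') (hYS q hq) (hYS q' hq')).1 t
  have hL2 : ∀ q q', dist q q0 ≤ ε0 → dist q' q0 ≤ ε0 → ∀ t,
      ‖Y q t - Y q' t‖ ≤ C * dist q q' := fun q q' hq hq' t =>
    (hL q q' hq hq' t).trans (mul_le_mul_of_nonneg_left (hint _ _ _) hC.le)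
  have hzero : dist q0 q0 ≤ ε0 := by rw [dist_self]; exact hε0.le
  have hNS0 : O.NS ρ (ev q0) O.x O.T := by
    refine ⟨fun t => ?_, O.hxp, rfl, fun t => by simpa using hρ.le, by simpa using hρ.le⟩
    rw [hev0, add_zero]
    exact O.hx t
  refine ⟨ε0, hε0, Y, S, hYS, ?_, hL, ?_, ?_⟩
  · intro q hq
    have h1 := (hYS q hq).2.2.2.2
    have h2 := abs_le.1 (h1.trans (hρρ.trans hρ0T))
    have := O.hT
    linarith [h2.1]
  · intro q hq t
    refine ((hlip _ _ _ _ _ _ (hsm q hq) (hsm _ hzero) (hYS q hq) hNS0).1 t).trans ?_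
    exact mul_le_mul_of_nonneg_left (hint _ _ _) hC.le
  · intro z0 hz0
    have hYc : Continuous (Y z0.1) := continuous_iff_continuousAt.2 fun t =>
      ((hYS z0.1 (le_of_lt hz0)).1 t).continuousAt
    rw [ContinuousWithinAt, tendsto_iff_norm_sub_tendsto_zero]
    have h1 : Tendsto (fun z : Q × ℝ => C * dist z.1 z0.1 + ‖Y z0.1 z.2 - Y z0.1 z0.2‖)
        (𝓝[{z | dist z.1 q0 < ε0}] z0) (𝓝 0) := by
      have hc : Continuous fun z : Q × ℝ =>
          C * dist z.1 z0.1 + ‖Y z0.1 z.2 - Y z0.1 z0.2‖ :=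
        (continuous_const.mul (continuous_fst.dist continuous_const)).add
          ((hYc.comp continuous_snd).sub continuous_const).norm
      have := (hc.tendsto z0).mono_left (nhdsWithin_le_nhds (s := {z | dist z.1 q0 < ε0}))
      simpa using this
    refine squeeze_zero' (Eventually.of_forall fun _ => norm_nonneg _) ?_ h1
    filter_upwards [self_mem_nhdsWithin] with z hz
    have e : Y z.1 z.2 - Y z0.1 z0.2 = (Y z.1 z.2 - Y z0.1 z.2) +
        (Y z0.1 z.2 - Y z0.1 z0.2) := by abel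
    rw [e]
    exact (norm_add_le _ _).trans (add_le_add (hL2 _ _ (le_of_lt hz) (le_of_lt hz0) _) le_rfl)

end

end H340Sync
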