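import Pool.Agent.Helper340_sync.Rest
import Pool.Agent.Helper340_sync.Family

/-!
Assembly: rigid synchrony patterns of hyperbolic periodic orbits are balanced.
-/

open Set MeasureTheory Filter Topology intervalIntegral
open scoped BoundedContinuousFunction

namespace H340Sync

/-! ### The orbit data -/

section orb

variable {P : Type*} [NormedAddCommGroup P] [NormedSpace ℝ P] [FiniteDimensional ℝ P]

theorem exists_orb {f : P → P} (hf : ContDiff ℝ 1 f) {x : ℝ → P} {T : ℝ}
    (hx : IsPeriodicOrbit f x T) (hh : IsHyperbolic f x T) :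
    ∃ O : Orb P, O.f = f ∧ O.T = T ∧ O.x = fun t => x (T * t) := by
  obtain ⟨hT, hxd, hxp, s0, t1, hne⟩ := hx
  obtain ⟨Φ, hΦ0, hΦd, hmult, -⟩ := hh
  have hxc : Continuous x := continuous_iff_continuousAt.2 fun t => (hxd t).continuousAt
  have hdfc : Continuous (fderiv ℝ f) := hf.continuous_fderiv one_ne_zero
  set A : ℝ → P →L[ℝ] P := fun t => T • fderiv ℝ f (x (T * t)) with hA
  have hAc : Continuous A := (hdfc.comp (hxc.comp (continuous_const.mul continuous_id))).const_smul T
  have hper : ∀ t, x (T * (t + 1)) = x (T * t) := by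
    intro t
    rw [mul_add, mul_one, hxp]
  have hAp : ∀ t, A (t + 1) = A t := by
    intro t
    simp only [hA]
    rw [hper]
  have hvd : ∀ t, HasDerivAt (fun t => f (x (T * t))) (A t (f (x (T * t)))) t := by
    intro t
    have h1 := deriv_scale (hxd (T * t))
    have h2 := ((hf.differentiable one_ne_zero (x (T * t))).hasFDerivAt).comp_hasDerivAt t h1
    have e : A t (f (x (T * t))) = (fderiv ℝ f (x (T * t))) (T • f (x (T * t))) := by
      rw [map_smul]
      rfl
    rw [e]
    exact h2
  have hv0 : f (x (T * 0)) ≠ 0 := by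
    intro h0
    have h1 := lin_unique (w := fun t => f (x (T * t))) (z := fun _ => 0) (r := fun _ => 0) hAc hAp
      (fun t => by simpa using hvd t) (fun t => by simpa using hasDerivAt_const t (0 : P)) 0 h0
    have h2 : ∀ t, f (x t) = 0 := by
      intro t
      have h3 : f (x (T * (t / T))) = 0 := congrFun h1 (t / T)
      rwa [mul_div_cancel₀ _ hT.ne'] at h3
    have h3 : ∀ a b, x a = x b := is_const_of_deriv_eq_zero
      (fun t => (hxd t).differentiableAt) (fun t => by rw [(hxd t).deriv, h2 t])
    exact hne (h3 _ _)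
  obtain ⟨l, -, hl⟩ := exists_dual_vector ℝ (f (x (T * 0))) (norm_ne_zero_iff.2 hv0)
  have hl0 : l (f (x (T * 0))) ≠ 0 := by
    rw [hl]
    simpa using hv0
  refine ⟨{ f := f, hf := hf, T := T, hT := hT, x := fun t => x (T * t),
            hx := fun t => deriv_scale (hxd (T * t)), hxp := hper,
            L := { A := A, hA := hAc, hAp := hAp, Φ := fun t => Φ (T * t),
                   hΦ0 := by simp only [mul_zero, hΦ0]; rfl,
                   hΦ := fun t => ?_,
                   v := fun t => f (x (T * t)), hv := hvd,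
                   hvp := fun t => by rw [hper],
                   hv0 := hv0,
                   mult := by simpa only [mul_one] using hmult,
                   l := l, hl := hl0 },
            hLA := fun t => rfl, hLv := fun t => rfl }, rfl, rfl, rfl⟩
  have h1 := deriv_scale (hΦd (T * t))
  have e : A t * Φ (T * t) = T • (fderiv ℝ f (x (T * t))).comp (Φ (T * t)) := by
    ext u
    rfl
  rw [e]
  exact h1

end orb

namespace Network

variable {N : Network} {V : N.NT → Type} [∀ θ, NormedAddCommGroup (V θ)]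
  [∀ θ, NormedSpace ℝ (V θ)]

/-! ### The space of perturbations -/

variable (N V) in
/-- Bounded admissible `C^1` vector fields with bounded derivative (component maps of class
`C^1`), with the `C^1` metric. -/
def PP : Type :=
  {q : (N.State V →ᵇ N.State V) × (N.State V →ᵇ (N.State V →L[ℝ] N.State V)) //
    (∀ u, HasFDerivAt (q.1 : N.State V → N.State V) (q.2 u) u) ∧
      AdmissibleC1 (q.1 : N.State V → N.State V)}

noncomputable instance : MetricSpace (PP N V) := inferInstanceAs (MetricSpace (Subtype _))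

theorem IsComponents.add_smul {f g : N.State V → N.State V}
    {F G : ∀ (θ : N.NT) (c : N.Node θ), N.InSp V c → V θ} (hf : IsComponents f F)
    (hg : IsComponents g G) (a : ℝ) :
    IsComponents (fun x => f x + a • g x) (fun θ c ζ => F θ c ζ + a • G θ c ζ) := by
  refine ⟨fun x θ c => ?_, fun θ c d β ζ => ?_⟩
  · change f x θ c + a • g x θ c = _
    rw [hf.1, hg.1]
  · simp only
    rw [hf.2 θ c d β, hg.2 θ c d β]

theorem AdmissibleC1.adm {f : N.State V → N.State V} (h : AdmissibleC1 f) : Admissible f := by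
  obtain ⟨F, hF, -⟩ := h
  exact ⟨F, hF⟩

theorem AdmissibleC1.add_smul {f g : N.State V → N.State V} (hf : AdmissibleC1 f)
    (hg : AdmissibleC1 g) (a : ℝ) : AdmissibleC1 (fun x => f x + a • g x) := by
  obtain ⟨F, hF, hF2⟩ := hf
  obtain ⟨G, hG, hG2⟩ := hg
  exact ⟨_, hF.add_smul hG a, fun θ c => (hF2 θ c).add (contDiff_const.smul (hG2 θ c))⟩

theorem Admissible.add {f g : N.State V → N.State V} (hf : Admissible f)
    (hg : Admissible g) : Admissible (fun x => f x + g x) := by
  obtain ⟨F, hF⟩ := hf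
  obtain ⟨G, hG⟩ := hg
  have := hF.add_smul hG 1
  simp only [one_smul] at this
  exact ⟨_, this⟩

theorem PP.contDiff (q : PP N V) : ContDiff ℝ 1 (q.1.1 : N.State V → N.State V) := by
  rw [contDiff_one_iff_fderiv]
  refine ⟨fun u => (q.2.1 u).differentiableAt, ?_⟩
  have : fderiv ℝ (q.1.1 : N.State V → N.State V) = q.1.2 := by
    funext u
    exact (q.2.1 u).fderiv
  rw [this]
  exact q.1.2.continuous

theorem PP.fderiv_eq (q : PP N V) (u : N.State V) :
    fderiv ℝ (q.1.1 : N.State V → N.State V) u = q.1.2 u := (q.2.1 u).fderiv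

/-- Perturbing in the direction `b`. -/
theorem PP.move (q : PP N V) {b : N.State V → N.State V} (hb1 : ContDiff ℝ 1 b)
    (hb2 : AdmissibleC1 b) (hb3 : BL b) : ∃ K : ℝ, 0 < K ∧ ∀ η : ℝ, 0 < η →
      ∃ q' : PP N V, dist q' q ≤ η * K ∧ ∀ u, q'.1.1 u = q.1.1 u + η • b u := by
  obtain ⟨K, hK0, hK1, hK2⟩ := hb3
  have hlip : LipschitzWith ⟨K, hK0⟩ b := LipschitzWith.of_dist_le_mul fun x y => by
    rw [dist_eq_norm, dist_eq_norm]; exact hK2 x y
  have hfd : ∀ u, ‖fderiv ℝ b u‖ ≤ K := fun u => norm_fderiv_le_of_lipschitz ℝ hlip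
  set B1 : N.State V →ᵇ N.State V :=
    BoundedContinuousFunction.ofNormedAddCommGroup b hb1.continuous K hK1 with hB1
  set B2 : N.State V →ᵇ (N.State V →L[ℝ] N.State V) :=
    BoundedContinuousFunction.ofNormedAddCommGroup (fderiv ℝ b)
      (hb1.continuous_fderiv one_ne_zero) K hfd with hB2
  refine ⟨K + 1, by positivity, fun η hη => ?_⟩
  refine ⟨⟨(q.1.1 + η • B1, q.1.2 + η • B2), fun u => ?_, ?_⟩, ?_, fun u => rfl⟩
  · have h1 := (q.2.1 u).add (((hb1.differentiable one_ne_zero u).hasFDerivAt).const_smul η)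
    exact h1
  · exact q.2.2.add_smul hb2 η
  · change dist ((q.1.1 + η • B1, q.1.2 + η • B2) :
      (N.State V →ᵇ N.State V) × (N.State V →ᵇ (N.State V →L[ℝ] N.State V))) q.1 ≤ _
    refine max_le ?_ ?_
    · rw [BoundedContinuousFunction.dist_le (by positivity)]
      intro u
      change dist (q.1.1 u + η • b u) (q.1.1 u) ≤ _
      rw [dist_eq_norm, add_sub_cancel_left, norm_smul, Real.norm_eq_abs, abs_of_pos hη]
      exact mul_le_mul_of_nonneg_left ((hK1 u).trans (by linarith)) hη.le
    · rw [BoundedContinuousFunction.dist_le (by positivity)]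
      intro u
      change dist (q.1.2 u + η • fderiv ℝ b u) (q.1.2 u) ≤ _
      rw [dist_eq_norm, add_sub_cancel_left, norm_smul, Real.norm_eq_abs, abs_of_pos hη]
      exact mul_le_mul_of_nonneg_left ((hfd u).trans (by linarith)) hη.le

/-- the zero perturbation -/
noncomputable def PP.zero : PP N V :=
  ⟨(0, 0), fun u => hasFDerivAt_const (0 : N.State V) u,
    ⟨fun _ _ _ => 0, ⟨fun _ _ _ => rfl, fun _ _ _ _ _ => rfl⟩, fun _ _ => contDiff_const⟩⟩

theorem PP.small {q : PP N V} {ε : ℝ} (h : dist q PP.zero ≤ ε) : Orb.Small ε (q.1.1) := by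
  have h1 : dist q.1 ((0, 0) : (N.State V →ᵇ N.State V) ×
    (N.State V →ᵇ (N.State V →L[ℝ] N.State V))) ≤ ε := h
  refine ⟨q.contDiff, fun z => ?_, fun z => ?_⟩
  · have h2 := ((BoundedContinuousFunction.dist_coe_le_dist (f := q.1.1) (g := 0) z).trans
      (le_max_left _ _)).trans h1
    change dist (q.1.1 z) 0 ≤ ε at h2
    rwa [dist_zero_right] at h2
  · rw [q.fderiv_eq]
    have h2 := ((BoundedContinuousFunction.dist_coe_le_dist (f := q.1.2) (g := 0) z).trans
      (le_max_right _ _)).trans h1
    change dist (q.1.2 z) 0 ≤ ε at h2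
    rwa [dist_zero_right] at h2

theorem PP.sub_le (q q' : PP N V) (u : N.State V) : ‖q.1.1 u - q'.1.1 u‖ ≤ dist q q' := by
  rw [← dist_eq_norm]
  exact (BoundedContinuousFunction.dist_coe_le_dist u).trans (le_max_left _ _)

end Network

end H340Sync
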