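import Pool.Agent.Helper340_sync.Main

/-!
Rigid synchrony patterns of hyperbolic periodic orbits are balanced.
-/

open Set MeasureTheory Filter Topology intervalIntegral
open scoped BoundedContinuousFunction

namespace H340Sync

namespace Network

variable {N : Network} {V : N.NT → Type} [∀ θ, NormedAddCommGroup (V θ)]
  [∀ θ, NormedSpace ℝ (V θ)]

theorem PP.fderiv_le (q : PP N V) (u : N.State V) :
    ‖fderiv ℝ (q.1.1 : N.State V → N.State V) u‖ ≤ dist q PP.zero :=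
  (PP.small (le_refl (dist q PP.zero))).2.2 u

theorem PP.zero_apply (u : N.State V) : (PP.zero : PP N V).1.1 u = 0 := rfl

variable [∀ θ, FiniteDimensional ℝ (V θ)]

/-- The synchrony pattern does not grow under small perturbations. -/
theorem no_new_sync {x : ℝ → N.State V} {X : ℝ → N.State V} {T C : ℝ} (hC : 0 < C)
    (hxX : ∀ t, x t = X (T⁻¹ * t)) (Y : PP N V → ℝ → N.State V) {ε1 : ℝ}
    (hY : ∀ q, dist q PP.zero ≤ ε1 → ∀ t, ‖Y q t - X t‖ ≤ C * dist q PP.zero) :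
    ∀ᶠ r in 𝓝[>] (0 : ℝ), ∀ (θ : N.NT) (c d : N.Node θ), ¬ syncPattern x θ c d →
      ∀ q : PP N V, dist q PP.zero ≤ ε1 → dist q PP.zero ≤ r →
        ¬ ∀ t, Y q t θ c = Y q t θ d := by
  rw [eventually_all]
  intro θ
  rw [eventually_all]
  intro c
  rw [eventually_all]
  intro d
  by_cases hcd : syncPattern x θ c d
  · exact Eventually.of_forall fun _ h => absurd hcd h
  · obtain ⟨t1, ht1⟩ := not_forall.1 hcd
    have hgp0 : 0 < ‖x t1 θ c - x t1 θ d‖ := norm_pos_iff.2 (sub_ne_zero.2 ht1)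
    generalize hgp : ‖x t1 θ c - x t1 θ d‖ = gp at hgp0
    have hgC : (0 : ℝ) < gp / (2 * C) := by positivity
    filter_upwards [Ioo_mem_nhdsGT hgC] with r hr _ q hq1 hq2 hcon
    have h1 := hY q hq1 (T⁻¹ * t1)
    rw [← hxX] at h1
    have h2 : C * dist q PP.zero < gp / 2 := by
      have h3 : dist q PP.zero < gp / (2 * C) := hq2.trans_lt hr.2
      have h4 := mul_lt_mul_of_pos_left h3 hC
      refine h4.trans_le (le_of_eq ?_)
      field_simp
    have e1 := (norm_coord_le (Y q (T⁻¹ * t1) - x t1) θ c).trans h1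
    have e2 := (norm_coord_le (Y q (T⁻¹ * t1) - x t1) θ d).trans h1
    simp only [Pi.sub_apply] at e1 e2
    rw [hcon] at e1
    have e3 : x t1 θ c - x t1 θ d = (Y q (T⁻¹ * t1) θ d - x t1 θ d) -
        (Y q (T⁻¹ * t1) θ d - x t1 θ c) := by abel
    have e4 : gp ≤ ‖Y q (T⁻¹ * t1) θ d - x t1 θ d‖ + ‖Y q (T⁻¹ * t1) θ d - x t1 θ c‖ := by
      rw [← hgp, e3]
      exact norm_sub_le _ _
    linarith

/-- **Core theorem.** -/
theorem core [∀ θ, Nontrivial (V θ)] {f : N.State V → N.State V} (hf : ContDiff ℝ 1 f)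
    (hadm : Admissible f) {x : ℝ → N.State V} {T : ℝ} (hx : IsPeriodicOrbit f x T)
    (hh : IsHyperbolic f x T)
    (hrig : Rigid f x T) :
    Balanced (syncPattern x) := by
  obtain ⟨O, hOf, hOT, hOx⟩ := exists_orb hf hx hh
  subst hOf
  subst hOT
  obtain ⟨ε, hε, δ, hδ, hrig⟩ := hrig
  obtain ⟨C, ρ0, hC, hρ0, hρ0T, hfam⟩ := family O (fun (q : PP N V) u => q.1.1 u) PP.zero
    PP.zero_apply PP.contDiff PP.sub_le PP.fderiv_le
  have hT := O.hT
  have hxx : ∀ t, x t = O.x (O.T⁻¹ * t) := by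
    intro t
    rw [hOx]
    change x t = x (O.T * (O.T⁻¹ * t))
    rw [← mul_assoc, mul_inv_cancel₀ hT.ne', one_mul]
  obtain ⟨-, -, -, a0, b0, hab⟩ := hx
  obtain ⟨M, hM0, hM⟩ := bdd_of_periodic (g := fun t => O.f (O.x t))
    (O.hf.continuous.comp O.xcont) (fun t => by rw [O.hxp])
  have hγ0 : 0 < ‖x a0 - x b0‖ := norm_pos_iff.2 (sub_ne_zero.2 hab)
  obtain ⟨ρ, hρp, hρ1, hρ2, hρ3, hρ4⟩ : ∃ ρ : ℝ, 0 < ρ ∧ ρ ≤ ρ0 ∧ ρ * (1 + 2 * M) < δ ∧ ρ < δ ∧
      2 * ρ < ‖x a0 - x b0‖ := by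
    generalize ‖x a0 - x b0‖ = γ at hγ0
    refine ⟨min ρ0 (min (δ / (2 * (1 + 2 * M))) (min (δ / 2) (γ / 4))),
      lt_min hρ0 (lt_min (by positivity) (lt_min (by positivity) (by positivity))),
      min_le_left _ _, ?_, ?_, ?_⟩
    · have h1 : min ρ0 (min (δ / (2 * (1 + 2 * M))) (min (δ / 2) (γ / 4))) ≤
          δ / (2 * (1 + 2 * M)) := (min_le_right _ _).trans (min_le_left _ _)
      have h2 := mul_le_mul_of_nonneg_right h1 (by positivity : 0 ≤ 1 + 2 * M)
      have h3 : δ / (2 * (1 + 2 * M)) * (1 + 2 * M) = δ / 2 := by field_simp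
      rw [h3] at h2
      linarith
    · have h1 : min ρ0 (min (δ / (2 * (1 + 2 * M))) (min (δ / 2) (γ / 4))) ≤ δ / 2 :=
        (min_le_right _ _).trans ((min_le_right _ _).trans (min_le_left _ _))
      linarith
    · have h1 : min ρ0 (min (δ / (2 * (1 + 2 * M))) (min (δ / 2) (γ / 4))) ≤ γ / 4 :=
        (min_le_right _ _).trans ((min_le_right _ _).trans (min_le_right _ _))
      linarith
  obtain ⟨ε0, hε0, Y, S, hNS, hS, hL, hY0, hcont⟩ := hfam ρ hρp hρ1
  have hnew := no_new_sync (x := x) (X := O.x) (T := O.T) hC hxx Y hY0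
  have hev2 : ∀ᶠ r in 𝓝[>] (0 : ℝ), r ∈ Ioo 0 ε0 := Ioo_mem_nhdsGT hε0
  have hev3 : ∀ᶠ r in 𝓝[>] (0 : ℝ), r ∈ Ioo 0 (ε / 2) := Ioo_mem_nhdsGT (half_pos hε)
  obtain ⟨r, hr1, hr2, hr3⟩ := (hnew.and (hev2.and hev3)).exists
  have hr2' : r < ε0 := hr2.2
  have hr3' : r < ε / 2 := hr3.2
  have hr0 : 0 < r := hr2.1
  let A : Fam N V :=
    { f := O.f
      hf := O.hf
      adm := hadm
      r := r
      hr := hr0
      Y := Y
      S := S
      hS := fun q hq => hS q (hq.trans hr2'.le)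
      hY := fun q hq => (hNS q (hq.trans hr2'.le)).1
      hYp := fun q hq => (hNS q (hq.trans hr2'.le)).2.1
      C := C
      hC := hC.le
      hL := fun q q' hq hq' => hL q q' (hq.trans hr2'.le) (hq'.trans hr2'.le)
      hc := hcont.mono fun z hz => by
        rw [mem_UU] at hz
        rw [Set.mem_ofPred_eq]
        exact hz.trans hr2' }
  refine A.balanced (syncPattern x) ?_ ?_
  · intro q hq θ c d hcd t
    have hq' : dist q PP.zero ≤ r := hq
    have hns := hNS q (hq'.trans hr2'.le)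
    obtain ⟨h1, h2, h3⟩ := orbit_of_NS O hM (hρ1.trans hρ0T) hρ2 hρ3 hxx hρ4 hns
    have hqs := PP.small (hq'.trans hr3'.le)
    have hε2 : ε / 2 < ε := half_lt_self hε
    have hz := hrig q.1.1 q.contDiff q.2.2 (fun u => (hqs.2.1 u).trans_lt hε2)
      (fun u => (hqs.2.2 u).trans_lt hε2) _ _ h1 h2 h3 θ c d hcd (S q * t)
    have hS0 : 0 < S q := hS q (hq'.trans hr2'.le)
    rw [← mul_assoc, inv_mul_cancel₀ hS0.ne', one_mul] at hz
    exact hz
  · intro q hq θ c d h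
    have hq' : dist q PP.zero ≤ r := hq
    by_contra hno
    exact hr1 θ c d hno q (hq'.trans hr2'.le) hq' h

end Network

end H340Sync
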