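import Mathlib

/-!
Linear periodic problem `w' = A w + sigma v + r` with period one, where the monodromy of `A`
has the simple multiplier one.
-/

open Set MeasureTheory intervalIntegral Filter Topology
open scoped NNReal

namespace H340Sync

variable {E : Type*} [NormedAddCommGroup E] [NormedSpace ℝ E]

/-- A continuous function of period one is bounded. -/
theorem bdd_of_periodic {F : Type*} [NormedAddCommGroup F] {g : ℝ → F} (hg : Continuous g)
    (hp : ∀ t, g (t + 1) = g t) : ∃ K : ℝ, 0 ≤ K ∧ ∀ t, ‖g t‖ ≤ K := by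
  obtain ⟨K, hK⟩ := (isCompact_Icc (a := (0 : ℝ)) (b := 1)).exists_bound_of_continuousOn
    (f := g) hg.continuousOn
  refine ⟨max K 0, le_max_right _ _, fun t => ?_⟩
  obtain ⟨s, hs, hts⟩ := Function.Periodic.exists_mem_Ico₀ (f := g) (c := 1) hp one_pos t
  rw [hts]
  exact (hK s ⟨hs.1, hs.2.le⟩).trans (le_max_left _ _)

/-- Uniqueness for linear equations. -/
theorem lin_unique {A : ℝ → E →L[ℝ] E} (hA : Continuous A) (hAp : ∀ t, A (t + 1) = A t)
    {w z : ℝ → E} {r : ℝ → E} (hw : ∀ t, HasDerivAt w (A t (w t) + r t) t)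
    (hz : ∀ t, HasDerivAt z (A t (z t) + r t) t) (t0 : ℝ) (h0 : w t0 = z t0) : w = z := by
  obtain ⟨K, hK0, hK⟩ := bdd_of_periodic hA hAp
  refine ODE_solution_unique_univ (v := fun t x => A t x + r t) (s := fun _ => univ)
    (K := ⟨K, hK0⟩) (t₀ := t0) ?_ (fun t => ⟨hw t, mem_univ _⟩) (fun t => ⟨hz t, mem_univ _⟩) h0
  intro t
  refine LipschitzOnWith.of_dist_le_mul fun x _ y _ => ?_
  simp only [dist_add_right]
  rw [dist_eq_norm, dist_eq_norm, ← map_sub]
  exact ((A t).le_opNorm _).trans (mul_le_mul_of_nonneg_right (hK t) (norm_nonneg _))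

/-- Data of the nondegenerate linear periodic problem. -/
structure Lin (E : Type*) [NormedAddCommGroup E] [NormedSpace ℝ E] [FiniteDimensional ℝ E] where
  /-- coefficient -/
  A : ℝ → E →L[ℝ] E
  hA : Continuous A
  hAp : ∀ t, A (t + 1) = A t
  /-- fundamental solution -/
  Φ : ℝ → E →L[ℝ] E
  hΦ0 : Φ 0 = 1
  hΦ : ∀ t, HasDerivAt Φ (A t * Φ t) t
  /-- derivative of the orbit -/
  v : ℝ → E
  hv : ∀ t, HasDerivAt v (A t (v t)) t
  hvp : ∀ t, v (t + 1) = v t
  hv0 : v 0 ≠ 0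
  mult : (LinearMap.charpoly ((Φ 1 : E →L[ℝ] E) : E →ₗ[ℝ] E)).rootMultiplicity 1 = 1
  /-- phase functional -/
  l : E →L[ℝ] ℝ
  hl : l (v 0) ≠ 0

namespace Lin

variable [FiniteDimensional ℝ E] (L : Lin E)

theorem hΦx (u : E) (t : ℝ) : HasDerivAt (fun t => L.Φ t u) (L.A t (L.Φ t u)) t := by
  have h := (L.hΦ t).clm_apply (hasDerivAt_const t u)
  simpa using h

theorem Φv (t : ℝ) : L.Φ t (L.v 0) = L.v t := by
  have h := lin_unique (w := fun t => L.Φ t (L.v 0)) (z := L.v) (r := fun _ => 0) L.hA L.hAp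
    (fun t => by simpa using L.hΦx (L.v 0) t) (fun t => by simpa using L.hv t) 0
    (by simp [L.hΦ0])
  exact congrFun h t

theorem Φinj (t : ℝ) (u : E) (h : L.Φ t u = 0) : u = 0 := by
  have h := lin_unique (w := fun t => L.Φ t u) (z := fun _ => 0) (r := fun _ => 0) L.hA L.hAp
    (fun t => by simpa using L.hΦx u t) (fun t => by simpa using hasDerivAt_const t (0 : E)) t h
  have := congrFun h 0
  simpa [L.hΦ0] using this

theorem Φunit (t : ℝ) : IsUnit (L.Φ t) := by
  have hinj : Function.Injective ((L.Φ t : E →L[ℝ] E) : E →ₗ[ℝ] E) := by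
    rw [← LinearMap.ker_eq_bot, LinearMap.ker_eq_bot']
    exact fun u hu => L.Φinj t u hu
  let e := (LinearEquiv.ofInjectiveEndo ((L.Φ t : E →L[ℝ] E) : E →ₗ[ℝ] E) hinj).toContinuousLinearEquiv
  refine ⟨ContinuousLinearEquiv.toUnit e, ?_⟩
  ext u
  rfl

/-- Inverse of the fundamental solution. -/
noncomputable def Ψ (t : ℝ) : E →L[ℝ] E := Ring.inverse (L.Φ t)

theorem ΦΨ (t : ℝ) (u : E) : L.Φ t (L.Ψ t u) = u := by
  have h := Ring.mul_inverse_cancel (L.Φ t) (L.Φunit t)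
  have := congrArg (fun T : E →L[ℝ] E => T u) h
  simpa [Ψ] using this

theorem ΨΦ (t : ℝ) (u : E) : L.Ψ t (L.Φ t u) = u := by
  have h := Ring.inverse_mul_cancel (L.Φ t) (L.Φunit t)
  have := congrArg (fun T : E →L[ℝ] E => T u) h
  simpa [Ψ] using this

theorem Φcont : Continuous L.Φ := continuous_iff_continuousAt.2 fun t => (L.hΦ t).continuousAt

theorem Ψcont : Continuous L.Ψ := by
  have : CompleteSpace E := FiniteDimensional.complete ℝ E
  rw [continuous_iff_continuousAt]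
  intro t
  obtain ⟨u, hu⟩ := L.Φunit t
  have h := NormedRing.inverse_continuousAt u
  rw [hu] at h
  exact ContinuousAt.comp (f := L.Φ) (x := t) h L.Φcont.continuousAt

/-- The pair `w, s` solves the linear periodic problem with right side `r`. -/
def Sol (w : ℝ → E) (s : ℝ) (r : ℝ → E) : Prop :=
  (∀ t, HasDerivAt w (L.A t (w t) + (s • L.v t + r t)) t) ∧ (∀ t, w (t + 1) = w t) ∧ L.l (w 0) = 0

/-- Variation of constants. -/
noncomputable def voc (w0 : E) (s : ℝ) (r : ℝ → E) (t : ℝ) : E :=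
  L.Φ t (w0 + (∫ x in (0 : ℝ)..t, L.Ψ x (r x)) + (s * t) • L.v 0)

theorem voc_deriv (w0 : E) (s : ℝ) {r : ℝ → E} (hr : Continuous r) (t : ℝ) :
    HasDerivAt (L.voc w0 s r) (L.A t (L.voc w0 s r t) + (s • L.v t + r t)) t := by
  have : CompleteSpace E := FiniteDimensional.complete ℝ E
  have hc : Continuous fun x => L.Ψ x (r x) := L.Ψcont.clm_apply hr
  have h1 : HasDerivAt (fun t => ∫ x in (0 : ℝ)..t, L.Ψ x (r x)) (L.Ψ t (r t)) t :=
    intervalIntegral.integral_hasDerivAt_right (hc.intervalIntegrable _ _)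
      hc.stronglyMeasurable.stronglyMeasurableAtFilter hc.continuousAt
  have h2 : HasDerivAt (fun t : ℝ => (s * t) • L.v 0) (s • L.v 0) t := by
    have := ((hasDerivAt_id t).const_mul s).smul_const (L.v 0)
    simpa using this
  have h3 := (L.hΦ t).clm_apply ((h1.const_add w0).add h2)
  have : L.A t (L.voc w0 s r t) + (s • L.v t + r t) =
      (L.A t * L.Φ t) (w0 + (∫ x in (0 : ℝ)..t, L.Ψ x (r x)) + (s * t) • L.v 0) +
        L.Φ t (L.Ψ t (r t) + s • L.v 0) := by
    rw [map_add (L.Φ t) (L.Ψ t (r t)) (s • L.v 0), L.ΦΨ, map_smul, L.Φv]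
    simp only [voc]
    rw [add_comm (r t)]
    rfl
  rw [this]
  exact h3

/-- The matching map. -/
noncomputable def B : (E × ℝ) →ₗ[ℝ] (E × ℝ) where
  toFun p := (p.1 - L.Φ 1 p.1 - p.2 • L.v 0, L.l p.1)
  map_add' p q := by
    ext
    · simp [add_smul]; abel
    · simp
  map_smul' c p := by
    ext
    · simp [smul_sub, mul_smul]
    · simp

theorem B_inj : Function.Injective L.B := by
  rw [← LinearMap.ker_eq_bot, LinearMap.ker_eq_bot']
  rintro ⟨w, s⟩ h
  have h1 : w - L.Φ 1 w - s • L.v 0 = 0 := congrArg Prod.fst h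
  have h2 : L.l w = 0 := congrArg Prod.snd h
  set M : Module.End ℝ E := ((L.Φ 1 : E →L[ℝ] E) : E →ₗ[ℝ] E) with hM
  have hMv : M (L.v 0) = L.v 0 := by
    have := L.Φv 1
    have h3 := L.hvp 0
    rw [zero_add] at h3
    rw [hM]
    simpa [h3] using this
  have hfr : Module.finrank ℝ (M.maxGenEigenspace 1) = 1 := by
    rw [LinearMap.finrank_maxGenEigenspace_eq]
    exact L.mult
  have hvm : L.v 0 ∈ M.maxGenEigenspace 1 := by
    rw [Module.End.mem_maxGenEigenspace]
    refine ⟨1, ?_⟩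
    simp [hMv]
  have hwm : w ∈ M.maxGenEigenspace 1 := by
    rw [Module.End.mem_maxGenEigenspace]
    refine ⟨2, ?_⟩
    have h4 : (M - (1 : ℝ) • 1) w = - (s • L.v 0) := by
      have : M w = w - s • L.v 0 := by
        rw [sub_eq_zero] at h1
        have : L.Φ 1 w = w - s • L.v 0 := by
          rw [← h1]; abel
        simpa [hM] using this
      simp [this]
    rw [pow_two]
    change (M - (1 : ℝ) • 1) ((M - (1 : ℝ) • 1) w) = 0
    rw [h4]
    simp [hMv]
  obtain ⟨c, hc⟩ : ∃ c : ℝ, c • L.v 0 = w := by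
    have := (finrank_eq_one_iff_of_nonzero' (⟨L.v 0, hvm⟩ : M.maxGenEigenspace 1)
      (by intro h; exact L.hv0 (congrArg Subtype.val h))).1 hfr ⟨w, hwm⟩
    obtain ⟨c, hc⟩ := this
    exact ⟨c, congrArg Subtype.val hc⟩
  have hc0 : c = 0 := by
    rw [← hc, map_smul, smul_eq_mul, mul_eq_zero] at h2
    exact h2.resolve_right L.hl
  have hw0 : w = 0 := by rw [← hc, hc0, zero_smul]
  subst hw0
  have hs : s = 0 := by
    simp only [map_zero, sub_zero, zero_sub, neg_eq_zero, smul_eq_zero] at h1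
    exact h1.resolve_right L.hv0
  rw [hs]
  rfl

theorem exists_sol {r : ℝ → E} (hr : Continuous r) (hrp : ∀ t, r (t + 1) = r t) :
    ∃ w s, L.Sol w s r := by
  have hsurj : Function.Surjective L.B := LinearMap.injective_iff_surjective.1 L.B_inj
  obtain ⟨⟨w0, s⟩, hw⟩ := hsurj (L.Φ 1 (∫ x in (0 : ℝ)..1, L.Ψ x (r x)), 0)
  have h1 : w0 - L.Φ 1 w0 - s • L.v 0 = L.Φ 1 (∫ x in (0 : ℝ)..1, L.Ψ x (r x)) :=
    congrArg Prod.fst hw
  have h2 : L.l w0 = 0 := congrArg Prod.snd hw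
  have hv1 : L.Φ 1 (L.v 0) = L.v 0 := by
    have := L.Φv 1
    have h3 := L.hvp 0
    rw [zero_add] at h3
    rw [this, h3]
  have e0 : L.voc w0 s r 0 = w0 := by simp [voc, L.hΦ0]
  have e1 : L.voc w0 s r 1 = w0 := by
    simp only [voc, map_add, map_smul, hv1, mul_one]
    rw [← h1]
    abel
  refine ⟨L.voc w0 s r, s, L.voc_deriv w0 s hr, ?_, by rw [e0, h2]⟩
  have hshift : (fun t => L.voc w0 s r (t + 1)) = L.voc w0 s r := by
    refine lin_unique (r := fun t => s • L.v t + r t) L.hA L.hAp ?_ (L.voc_deriv w0 s hr) 0 ?_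
    · intro t
      have := (L.voc_deriv w0 s hr (t + 1)).comp_add_const t 1
      rw [L.hAp, L.hvp, hrp] at this
      exact this
    · simp only [zero_add]
      rw [e0, e1]
  intro t
  exact congrFun hshift t

theorem sol_est : ∃ C : ℝ, 0 < C ∧ ∀ (r w : ℝ → E) (s : ℝ), Continuous r → L.Sol w s r →
    (∀ t, ‖w t‖ ≤ C * ∫ x in (0 : ℝ)..1, ‖r x‖) ∧ |s| ≤ C * ∫ x in (0 : ℝ)..1, ‖r x‖ := by
  obtain ⟨K, hK0, hK⟩ := L.B.exists_antilipschitzWith (LinearMap.ker_eq_bot.2 L.B_inj)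
  obtain ⟨a, ha⟩ := (isCompact_Icc (a := (0 : ℝ)) (b := 1)).exists_bound_of_continuousOn
    (f := L.Φ) L.Φcont.continuousOn
  obtain ⟨b, hb⟩ := (isCompact_Icc (a := (0 : ℝ)) (b := 1)).exists_bound_of_continuousOn
    (f := L.Ψ) L.Ψcont.continuousOn
  have ha0 : 0 ≤ a := (norm_nonneg _).trans (ha 0 (by simp))
  have hb0 : 0 ≤ b := (norm_nonneg _).trans (hb 0 (by simp))
  set m : ℝ := K * (a * b) with hm
  have hm0 : 0 ≤ m := by positivity
  refine ⟨a * (m + b + m * ‖L.v 0‖) + m + 1, by positivity, ?_⟩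
  intro r w s hr hw
  set I : ℝ := ∫ x in (0 : ℝ)..1, ‖r x‖ with hI
  have hI0 : 0 ≤ I := intervalIntegral.integral_nonneg (by norm_num) fun _ _ => norm_nonneg _
  have hwv : w = L.voc (w 0) s r := by
    refine lin_unique (r := fun t => s • L.v t + r t) L.hA L.hAp hw.1 (L.voc_deriv (w 0) s hr) 0 ?_
    simp [voc, L.hΦ0]
  have hH : ∀ t ∈ Icc (0 : ℝ) 1, ‖∫ x in (0 : ℝ)..t, L.Ψ x (r x)‖ ≤ b * I := by
    intro t ht
    have hc : Continuous fun x => L.Ψ x (r x) := L.Ψcont.clm_apply hr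
    calc ‖∫ x in (0 : ℝ)..t, L.Ψ x (r x)‖ ≤ ∫ x in (0 : ℝ)..t, ‖L.Ψ x (r x)‖ :=
          intervalIntegral.norm_integral_le_integral_norm ht.1
      _ ≤ ∫ x in (0 : ℝ)..t, b * ‖r x‖ := by
          refine intervalIntegral.integral_mono_on ht.1 (hc.norm.intervalIntegrable _ _)
            ((hr.norm.const_mul b).intervalIntegrable _ _) fun x hx => ?_
          exact ((L.Ψ x).le_opNorm _).trans
            (mul_le_mul_of_nonneg_right (hb x ⟨hx.1, hx.2.trans ht.2⟩) (norm_nonneg _))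
      _ ≤ ∫ x in (0 : ℝ)..1, b * ‖r x‖ := by
          refine intervalIntegral.integral_mono_interval le_rfl ht.1 ht.2 ?_
            ((hr.norm.const_mul b).intervalIntegrable _ _)
          exact Filter.Eventually.of_forall fun x => mul_nonneg hb0 (norm_nonneg _)
      _ = b * I := by rw [intervalIntegral.integral_const_mul]
  have hv1 : L.Φ 1 (L.v 0) = L.v 0 := by
    have := L.Φv 1
    have h3 := L.hvp 0
    rw [zero_add] at h3
    rw [this, h3]
  have hBw : L.B (w 0, s) = (L.Φ 1 (∫ x in (0 : ℝ)..1, L.Ψ x (r x)), 0) := by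
    have h1 : w 1 = w 0 := by simpa using hw.2.1 0
    have h2 : w 1 = L.voc (w 0) s r 1 := congrFun hwv 1
    have h3 : w 0 = L.Φ 1 (w 0) + L.Φ 1 (∫ x in (0 : ℝ)..1, L.Ψ x (r x)) + s • L.v 0 := by
      conv_lhs => rw [← h1, h2]
      simp only [voc, map_add, map_smul, hv1, mul_one]
    have h4 : w 0 - L.Φ 1 (w 0) - s • L.v 0 = L.Φ 1 (∫ x in (0 : ℝ)..1, L.Ψ x (r x)) := by
      conv_lhs => rw [sub_sub]
      rw [sub_eq_iff_eq_add]
      conv_lhs => rw [h3]
      abel
    change ((w 0 - L.Φ 1 (w 0) - s • L.v 0, L.l (w 0)) : E × ℝ) = _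
    rw [h4, hw.2.2]
  have hpair : ‖((w 0, s) : E × ℝ)‖ ≤ m * I := by
    have h := hK.le_mul_dist (w 0, s) 0
    rw [map_zero, dist_zero_right, dist_zero_right, hBw] at h
    refine h.trans ?_
    have h5 : ‖((L.Φ 1 (∫ x in (0 : ℝ)..1, L.Ψ x (r x)), 0) : E × ℝ)‖ ≤ a * (b * I) := by
      rw [Prod.norm_def]
      simp only [norm_zero]
      refine max_le ?_ (by positivity)
      exact ((L.Φ 1).le_opNorm _).trans (mul_le_mul (ha 1 (by simp)) (hH 1 (by simp))
        (norm_nonneg _) ha0)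
    calc (K : ℝ) * _ ≤ K * (a * (b * I)) := mul_le_mul_of_nonneg_left h5 K.2
      _ = m * I := by rw [hm]; ring
  have hw0 : ‖w 0‖ ≤ m * I := (norm_fst_le _).trans hpair
  have hs0 : |s| ≤ m * I := by
    have := (norm_snd_le ((w 0, s) : E × ℝ)).trans hpair
    simpa using this
  refine ⟨?_, ?_⟩
  · intro t
    obtain ⟨u, hu, htu⟩ := Function.Periodic.exists_mem_Ico₀ (f := w) (c := 1) hw.2.1 one_pos t
    rw [htu, hwv]
    have huI : u ∈ Icc (0 : ℝ) 1 := ⟨hu.1, hu.2.le⟩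
    have h6 : ‖L.voc (w 0) s r u‖ ≤ a * (m * I + b * I + m * I * ‖L.v 0‖) := by
      refine ((L.Φ u).le_opNorm _).trans (mul_le_mul (ha u huI) ?_ (norm_nonneg _) ha0)
      refine (norm_add_le _ _).trans (add_le_add ((norm_add_le _ _).trans
        (add_le_add hw0 (hH u huI))) ?_)
      rw [norm_smul]
      refine mul_le_mul_of_nonneg_right ?_ (norm_nonneg _)
      rw [norm_mul, Real.norm_eq_abs, Real.norm_eq_abs]
      calc |s| * |u| ≤ |s| * 1 := by
            refine mul_le_mul_of_nonneg_left ?_ (abs_nonneg _)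
            rw [abs_of_nonneg huI.1]; exact huI.2
        _ ≤ m * I := by rw [mul_one]; exact hs0
    refine h6.trans ?_
    have : a * (m * I + b * I + m * I * ‖L.v 0‖) = (a * (m + b + m * ‖L.v 0‖)) * I := by ring
    rw [this]
    refine mul_le_mul_of_nonneg_right ?_ hI0
    linarith
  · refine hs0.trans (mul_le_mul_of_nonneg_right ?_ hI0)
    have : 0 ≤ a * (m + b + m * ‖L.v 0‖) := by positivity
    linarith

end Lin

end H340Sync
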