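import Pool.Agent.Helper340_sync.Bump

/-!
The local analysis: on an open set of (perturbation, time) on which all equalities of cells and
all vanishing speeds are decided, the relation of equal cells is balanced.
-/

open Set MeasureTheory Filter Topology intervalIntegral

namespace H340Sync

namespace Network

variable {N : Network} {V : N.NT → Type} [∀ θ, NormedAddCommGroup (V θ)]
  [∀ θ, NormedSpace ℝ (V θ)] [∀ θ, FiniteDimensional ℝ (V θ)]

/-- The decided situation near a time `t0`. -/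
structure Loc (N : Network) (V : N.NT → Type) [∀ θ, NormedAddCommGroup (V θ)]
    [∀ θ, NormedSpace ℝ (V θ)] [∀ θ, FiniteDimensional ℝ (V θ)] where
  /-- vector field -/
  g : N.State V → N.State V
  hg : ContDiff ℝ 1 g
  adm : Admissible g
  /-- normalised periodic orbit -/
  y : ℝ → N.State V
  /-- period -/
  s : ℝ
  hs : 0 < s
  hy : ∀ t, HasDerivAt y (s • g (y t)) t
  hyp : ∀ t, y (t + 1) = y t
  /-- centre of the time interval -/
  t0 : ℝ
  /-- radius of the time interval -/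
  r : ℝ
  hr : 0 < r
  /-- resting nodes -/
  R : ∀ θ, N.Node θ → Prop
  /-- equal nodes -/
  E : ∀ θ, N.Node θ → N.Node θ → Prop
  hE : ∀ t ∈ Metric.ball t0 r, ∀ θ c d, E θ c d ↔ y t θ c = y t θ d
  hR : ∀ t ∈ Metric.ball t0 r, ∀ θ c, R θ c ↔ g (y t) θ c = 0
  /-- Lipschitz constant of the perturbation estimate -/
  C : ℝ
  hC : 0 ≤ C
  pert : ∀ b : N.State V → N.State V, ContDiff ℝ 1 b → AdmissibleC1 b → BL b →
    ∃ η0 > 0, ∀ η : ℝ, 0 < η → η < η0 → ∃ (z : ℝ → N.State V) (s' : ℝ), 0 < s' ∧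
      (∀ t, HasDerivAt z (s' • (g (z t) + η • b (z t))) t) ∧
      (∀ t, ‖z t - y t‖ ≤ η * (C * ∫ u in (0 : ℝ)..1, ‖b (y u)‖)) ∧
      (∀ t ∈ Metric.ball t0 r, ∀ θ c d, E θ c d → z t θ c = z t θ d) ∧
      (∀ t ∈ Metric.ball t0 r, ∀ θ c, R θ c → g (z t) θ c + η • b (z t) θ c = 0)

theorem hasDerivAt_coord {z : ℝ → N.State V} {w : N.State V} {t : ℝ} (h : HasDerivAt z w t)
    (θ : N.NT) (c : N.Node θ) : HasDerivAt (fun t => z t θ c) (w θ c) t := by
  have := (prj (V := V) θ c).hasFDerivAt.comp_hasDerivAt t h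
  exact this

theorem eq_of_deriv {z : ℝ → N.State V} {w : N.State V} {t t0 r : ℝ} (h : HasDerivAt z w t)
    (ht : t ∈ Metric.ball t0 r) (θ : N.NT) (c d : N.Node θ)
    (he : ∀ t ∈ Metric.ball t0 r, z t θ c = z t θ d) : w θ c = w θ d := by
  have h1 := hasDerivAt_coord h θ c
  have h2 := hasDerivAt_coord h θ d
  have h3 : (fun t => z t θ c) =ᶠ[𝓝 t] fun t => z t θ d := by
    filter_upwards [Metric.isOpen_ball.mem_nhds ht] with u hu using he u hu
  exact (h1.congr_of_eventuallyEq h3.symm).unique h2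

namespace Loc

variable (L : Loc N V)

theorem ycont : Continuous L.y := continuous_iff_continuousAt.2 fun t => (L.hy t).continuousAt

theorem ybdd : ∃ K : ℝ, 0 ≤ K ∧ ∀ t, ‖L.y t‖ ≤ K := by
  obtain ⟨K, hK⟩ := (isCompact_Icc (a := (0 : ℝ)) (b := 1)).exists_bound_of_continuousOn
    (f := L.y) L.ycont.continuousOn
  refine ⟨max K 0, le_max_right _ _, fun t => ?_⟩
  obtain ⟨s, hs, hts⟩ := Function.Periodic.exists_mem_Ico₀ (f := L.y) (c := 1) L.hyp one_pos t
  rw [hts]
  exact (hK s ⟨hs.1, hs.2.le⟩).trans (le_max_left _ _)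

/-- A Lipschitz constant of `g` near the orbit. -/
theorem lip : ∃ K Λ : ℝ, 0 ≤ K ∧ 0 ≤ Λ ∧ (∀ t, ‖L.y t‖ ≤ K) ∧
    ∀ x y : N.State V, ‖x‖ ≤ K + 1 → ‖y‖ ≤ K + 1 → ‖L.g x - L.g y‖ ≤ Λ * ‖x - y‖ := by
  obtain ⟨K, hK0, hK⟩ := L.ybdd
  obtain ⟨Λ, hΛ⟩ := ContDiffOn.exists_lipschitzOnWith (s := Metric.closedBall (0 : N.State V) (K + 1))
    L.hg.contDiffOn one_ne_zero (convex_closedBall _ _) (isCompact_closedBall _ _)
  refine ⟨K, Λ, hK0, Λ.2, hK, fun x y hx hy => ?_⟩
  have := hΛ.dist_le_mul x (by simpa using hx) y (by simpa using hy)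
  rwa [dist_eq_norm, dist_eq_norm] at this

/-- choice of a small parameter -/
theorem exists_small {η0 δ I : ℝ} (hη0 : 0 < η0) (hδ : 0 < δ) (hI : 0 ≤ I) :
    ∃ η, 0 < η ∧ η < η0 ∧ η * I < δ := by
  refine ⟨min (η0 / 2) (δ / (2 * (I + 1))), lt_min (by positivity) (by positivity), ?_, ?_⟩
  · exact (min_le_left _ _).trans_lt (by linarith)
  · have h1 : min (η0 / 2) (δ / (2 * (I + 1))) ≤ δ / (2 * (I + 1)) := min_le_right _ _
    have h2 := mul_le_mul_of_nonneg_right h1 hI
    have h3 : δ / (2 * (I + 1)) * I ≤ δ / 2 := by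
      rw [div_mul_eq_mul_div, div_le_div_iff₀ (by positivity) (by positivity)]
      nlinarith
    linarith

theorem pl : ∃ Λ : ℝ, 0 ≤ Λ ∧ ∀ b : N.State V → N.State V, ContDiff ℝ 1 b → AdmissibleC1 b →
    BL b → ∀ t ∈ Metric.ball L.t0 L.r,
      (∀ θ c, L.R θ c → ‖b (L.y t) θ c‖ ≤ Λ * ∫ u in (0 : ℝ)..1, ‖b (L.y u)‖) ∧
      (∀ θ c d, L.E θ c d →
        ‖b (L.y t) θ c - b (L.y t) θ d‖ ≤ Λ * ∫ u in (0 : ℝ)..1, ‖b (L.y u)‖) := by
  obtain ⟨K, Λ, hK0, hΛ0, hK, hlip⟩ := L.lip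
  refine ⟨2 * Λ * L.C, by have := L.hC; positivity, ?_⟩
  intro b hb1 hb2 hb3 t ht
  obtain ⟨η0, hη0, hpert⟩ := L.pert b hb1 hb2 hb3
  set J : ℝ := ∫ u in (0 : ℝ)..1, ‖b (L.y u)‖ with hJ
  have hJ0 : 0 ≤ J := intervalIntegral.integral_nonneg (by norm_num) fun _ _ => norm_nonneg _
  have hCJ : 0 ≤ L.C * J := mul_nonneg L.hC hJ0
  -- approximations
  have happ : ∀ ε > 0, ∃ (η : ℝ) (z : ℝ → N.State V) (s' : ℝ), 0 < η ∧ 0 < s' ∧
      (∀ t, HasDerivAt z (s' • (L.g (z t) + η • b (z t))) t) ∧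
      (‖z t - L.y t‖ ≤ η * (L.C * J)) ∧
      (∀ t ∈ Metric.ball L.t0 L.r, ∀ θ c d, L.E θ c d → z t θ c = z t θ d) ∧
      (∀ θ c, L.R θ c → L.g (z t) θ c + η • b (z t) θ c = 0) ∧
      ‖b (z t) - b (L.y t)‖ ≤ ε ∧ ‖L.g (z t) - L.g (L.y t)‖ ≤ Λ * (η * (L.C * J)) := by
    intro ε hε
    obtain ⟨δ, hδ, hbδ⟩ := Metric.continuous_iff.1 hb1.continuous (L.y t) ε hε
    obtain ⟨η, h1, h2, h3⟩ := exists_small hη0 (lt_min hδ one_pos) hCJ
    obtain ⟨z, s', hs', hz1, hz2, hz3, hz4⟩ := hpert η h1 h2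
    have hz2t := hz2 t
    have hlt : ‖z t - L.y t‖ < min δ 1 := hz2t.trans_lt h3
    refine ⟨η, z, s', h1, hs', hz1, hz2t, hz3, hz4 t ht, ?_, ?_⟩
    · have := hbδ (z t) (by rw [dist_eq_norm]; exact hlt.trans_le (min_le_left _ _))
      rw [dist_eq_norm] at this
      exact this.le
    · have hzK : ‖z t‖ ≤ K + 1 := by
        have h4 := norm_add_le (z t - L.y t) (L.y t)
        rw [sub_add_cancel] at h4
        have h5 := hlt.trans_le (min_le_right _ _)
        linarith [hK t]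
      exact (hlip _ _ hzK (by linarith [hK t])).trans (mul_le_mul_of_nonneg_left hz2t hΛ0)
  refine ⟨fun θ c hc => ?_, fun θ c d hcd => ?_⟩
  · refine le_of_forall_pos_le_add fun ε hε => ?_
    obtain ⟨η, z, s', hη, hs', hz1, hz2, hz3, hz4, hz5, hz6⟩ := happ ε hε
    have h1 := hz4 θ c hc
    have h2 : L.g (L.y t) θ c = 0 := (L.hR t ht θ c).1 hc
    have h3 : η • b (z t) θ c = -(L.g (z t) - L.g (L.y t)) θ c := by
      rw [Pi.sub_apply, Pi.sub_apply, h2, sub_zero]
      exact (neg_eq_of_add_eq_zero_right h1).symm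
    have h4 : η * ‖b (z t) θ c‖ ≤ Λ * (η * (L.C * J)) := by
      have : ‖η • b (z t) θ c‖ = η * ‖b (z t) θ c‖ := by
        rw [norm_smul, Real.norm_eq_abs, abs_of_pos hη]
      rw [← this, h3, norm_neg]
      exact (norm_coord_le _ _ _).trans hz6
    have h5 : ‖b (z t) θ c‖ ≤ Λ * (L.C * J) := by
      have : η * ‖b (z t) θ c‖ ≤ η * (Λ * (L.C * J)) := by linarith
      exact le_of_mul_le_mul_left this hη
    have h6 : ‖b (L.y t) θ c‖ ≤ ‖b (z t) θ c‖ + ε := by
      have h7 := (norm_coord_le (b (z t) - b (L.y t)) θ c).trans hz5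
      rw [Pi.sub_apply, Pi.sub_apply, norm_sub_rev] at h7
      have h8 := norm_add_le (b (L.y t) θ c - b (z t) θ c) (b (z t) θ c)
      rw [sub_add_cancel] at h8
      linarith
    have h7 : 0 ≤ Λ * (L.C * J) := mul_nonneg hΛ0 hCJ
    nlinarith
  · refine le_of_forall_pos_le_add fun ε hε => ?_
    obtain ⟨η, z, s', hη, hs', hz1, hz2, hz3, hz4, hz5, hz6⟩ := happ (ε / 2) (by positivity)
    have h1 : (L.g (z t) + η • b (z t)) θ c = (L.g (z t) + η • b (z t)) θ d := by
      have := eq_of_deriv (hz1 t) ht θ c d (fun u hu => hz3 u hu θ c d hcd)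
      exact smul_right_injective _ hs'.ne' this
    have h2 : (L.g (L.y t)) θ c = (L.g (L.y t)) θ d := by
      have := eq_of_deriv (L.hy t) ht θ c d (fun u hu => (L.hE u hu θ c d).1 hcd)
      exact smul_right_injective _ L.hs.ne' this
    have h3 : η • (b (z t) θ c - b (z t) θ d) = (L.g (z t) - L.g (L.y t)) θ d -
        (L.g (z t) - L.g (L.y t)) θ c := by
      simp only [Pi.sub_apply, Pi.add_apply, Pi.smul_apply] at h1 ⊢
      rw [h2, smul_sub]
      have : η • b (z t) θ c = L.g (z t) θ d + η • b (z t) θ d - L.g (z t) θ c := by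
        rw [← h1]; abel
      rw [this]; abel
    have h4 : η * ‖b (z t) θ c - b (z t) θ d‖ ≤ 2 * (Λ * (η * (L.C * J))) := by
      have : ‖η • (b (z t) θ c - b (z t) θ d)‖ = η * ‖b (z t) θ c - b (z t) θ d‖ := by
        rw [norm_smul, Real.norm_eq_abs, abs_of_pos hη]
      rw [← this, h3]
      refine (norm_sub_le _ _).trans ?_
      have e1 := (norm_coord_le (L.g (z t) - L.g (L.y t)) θ c).trans hz6
      have e2 := (norm_coord_le (L.g (z t) - L.g (L.y t)) θ d).trans hz6
      linarith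
    have h5 : ‖b (z t) θ c - b (z t) θ d‖ ≤ 2 * Λ * (L.C * J) := by
      have : η * ‖b (z t) θ c - b (z t) θ d‖ ≤ η * (2 * Λ * (L.C * J)) := by linarith
      exact le_of_mul_le_mul_left this hη
    have e1 := (norm_coord_le (b (z t) - b (L.y t)) θ c).trans hz5
    have e2 := (norm_coord_le (b (z t) - b (L.y t)) θ d).trans hz5
    simp only [Pi.sub_apply] at e1 e2
    have e3 : b (L.y t) θ c - b (L.y t) θ d = (b (z t) θ c - b (z t) θ d) -
        (b (z t) θ c - b (L.y t) θ c) + (b (z t) θ d - b (L.y t) θ d) := by abel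
    rw [e3]
    refine (norm_add_le _ _).trans ?_
    have e4 := norm_sub_le (b (z t) θ c - b (z t) θ d) (b (z t) θ c - b (L.y t) θ c)
    linarith

/-- The limit of the integrals of the bump perturbations vanishes. -/
theorem int_tendsto (ξ : ∀ θ (c : N.Node θ), N.InSp V c) (z : N.State V)
    (h0 : ∀ᵐ u ∂(volume.restrict (uIoc (0 : ℝ) 1)), blim ξ z (L.y u) = 0) :
    Tendsto (fun n => ∫ u in (0 : ℝ)..1, ‖bn ξ z n (L.y u)‖) atTop (𝓝 0) := by
  obtain ⟨K, hK0, hK⟩ := bn_bound ξ z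
  have h := intervalIntegral.tendsto_integral_filter_of_dominated_convergence
    (a := 0) (b := 1) (μ := volume) (l := atTop)
    (F := fun n u => ‖bn ξ z n (L.y u)‖) (f := fun _ => (0 : ℝ)) (fun _ => K) ?_ ?_ ?_ ?_
  · simpa using h
  · refine Eventually.of_forall fun n => ?_
    exact ((bn_contDiff ξ z n).continuous.comp L.ycont).norm.aestronglyMeasurable
  · refine Eventually.of_forall fun n => Eventually.of_forall fun u _ => ?_
    rw [norm_norm]
    exact hK n _
  · exact intervalIntegrable_const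
  · rw [ae_restrict_iff' measurableSet_uIoc] at h0
    filter_upwards [h0] with u hu hu2
    have h1 := (bn_tendsto ξ z (L.y u)).norm
    rw [hu hu2, norm_zero] at h1
    exact h1

section
open Classical in
/-- The vector with the single coordinate `u0` at `c`. -/
noncomputable def sing {θ : N.NT} (c : N.Node θ) (u0 : V θ) : N.State V :=
  Pi.single θ (Pi.single c u0)

open Classical in
theorem blim_sing {θ : N.NT} (c : N.Node θ) (u0 : V θ)
    (ξ : ∀ θ (c : N.Node θ), N.InSp V c) (x : N.State V) (d : N.Node θ) :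
    blim ξ (sing c u0) x θ d =
      (∑ β : N.InIso c d, (if pull β (inputState d x) = ξ θ c then (1 : ℝ) else 0)) • u0 := by
  unfold blim
  rw [Finset.sum_eq_single c, Finset.sum_smul]
  · refine Finset.sum_congr rfl fun β _ => ?_
    simp [sing]
  · intro c1 _ hc1
    refine Finset.sum_eq_zero fun β _ => ?_
    have : sing c u0 θ c1 = 0 := by
      simp [sing, Pi.single_eq_of_ne hc1]
    rw [this, smul_zero]
  · intro h
    exact absurd (Finset.mem_univ c) h

theorem blim_sing_zero {θ : N.NT} (c : N.Node θ) (u0 : V θ)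
    (ξ : ∀ θ (c : N.Node θ), N.InSp V c) (x : N.State V)
    (h : ∀ (d : N.Node θ) (β : N.InIso c d), pull β (inputState d x) ≠ ξ θ c) :
    blim ξ (sing c u0) x = 0 := by
  classical
  funext θ' d
  by_cases hθ : θ' = θ
  · subst hθ
    rw [blim_sing]
    rw [Finset.sum_eq_zero, zero_smul]
    · rfl
    · intro β _
      rw [if_neg (h d β)]
  · unfold blim
    refine Finset.sum_eq_zero fun c1 _ => Finset.sum_eq_zero fun β _ => ?_
    have : sing c u0 θ' = 0 := by
      simp [sing, Pi.single_eq_of_ne hθ]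
    rw [this]
    simp

end

theorem matchL [∀ θ, Nontrivial (V θ)] {t : ℝ} (ht : t ∈ Metric.ball L.t0 L.r) (θ : N.NT)
    (c : N.Node θ)
    (hnull : ∀ (d : N.Node θ) (β : N.InIso c d), ∀ᵐ u ∂(volume.restrict (uIoc (0 : ℝ) 1)),
      pull β (inputState d (L.y u)) ≠ inputState c (L.y t)) :
    ¬ L.R θ c ∧ ∀ d, L.E θ c d → ∃ β : N.InIso c d,
      pull β (inputState d (L.y t)) = inputState c (L.y t) := by
  classical
  obtain ⟨u0, hu0⟩ := exists_ne (0 : V θ)
  set ξ : ∀ θ (c : N.Node θ), N.InSp V c := fun θ c => inputState c (L.y t) with hξ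
  set z : N.State V := sing c u0 with hz
  have h0 : ∀ᵐ u ∂(volume.restrict (uIoc (0 : ℝ) 1)), blim ξ z (L.y u) = 0 := by
    have h1 : ∀ᵐ u ∂(volume.restrict (uIoc (0 : ℝ) 1)), ∀ (d : N.Node θ) (β : N.InIso c d),
        pull β (inputState d (L.y u)) ≠ inputState c (L.y t) :=
      ae_all_iff.2 fun d => ae_all_iff.2 fun β => hnull d β
    filter_upwards [h1] with u hu
    exact blim_sing_zero c u0 ξ _ hu
  have hint := L.int_tendsto ξ z h0
  obtain ⟨Λ, hΛ0, hpl⟩ := L.pl
  have hlim := bn_tendsto ξ z (L.y t)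
  have hbd := hint.const_mul Λ
  rw [mul_zero] at hbd
  have hcoef : blim ξ z (L.y t) θ c ≠ 0 := by
    rw [hz, blim_sing]
    refine smul_ne_zero ?_ hu0
    have : 0 < ∑ β : N.InIso c c, (if pull β (inputState c (L.y t)) = ξ θ c then (1 : ℝ) else 0) := by
      refine Finset.sum_pos' (fun β _ => by split_ifs <;> norm_num)
        ⟨InIso.refl c, Finset.mem_univ _, ?_⟩
      rw [pull_refl, if_pos rfl]
      norm_num
    exact this.ne'
  have hcont : ∀ θ (d : N.Node θ), Tendsto (fun n => bn ξ z n (L.y t) θ d) atTop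
      (𝓝 (blim ξ z (L.y t) θ d)) := fun θ d => by
    have := ((prj (V := V) θ d).continuous.tendsto (blim ξ z (L.y t))).comp hlim
    exact this
  refine ⟨fun hRc => ?_, fun d hcd => ?_⟩
  · have h1 : ‖blim ξ z (L.y t) θ c‖ ≤ 0 := by
      refine le_of_tendsto_of_tendsto (hcont θ c).norm hbd (Eventually.of_forall fun n => ?_)
      exact (hpl _ (bn_contDiff ξ z n) (bn_adm ξ z n) (bn_BL ξ z n) t ht).1 θ c hRc
    exact hcoef (norm_le_zero_iff.1 h1)
  · have h1 : ‖blim ξ z (L.y t) θ c - blim ξ z (L.y t) θ d‖ ≤ 0 := by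
      refine le_of_tendsto_of_tendsto ((hcont θ c).sub (hcont θ d)).norm hbd
        (Eventually.of_forall fun n => ?_)
      exact (hpl _ (bn_contDiff ξ z n) (bn_adm ξ z n) (bn_BL ξ z n) t ht).2 θ c d hcd
    rw [norm_le_zero_iff, sub_eq_zero] at h1
    rw [h1, hz, blim_sing] at hcoef
    by_contra hno
    push Not at hno
    apply hcoef
    rw [Finset.sum_eq_zero, zero_smul]
    intro β _
    rw [if_neg (hno β)]

/-- The set of resting nodes is closed under passing to the tails of inputs. -/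
theorem R_closed [∀ θ, Nontrivial (V θ)] {θ : N.NT} {c : N.Node θ} (hc : L.R θ c) (a : N.AT)
    (e : N.In c a) : L.R (N.src a) (N.inTail e) := by
  by_contra hne
  obtain ⟨t, ht, htg⟩ := good_time (W := V (N.src a)) (ι := N.Node (N.src a))
    (fun i u => L.y u (N.src a) i) (fun i => ((prj (V := V) (N.src a) i).continuous.comp L.ycont))
    (h := fun t => L.y t (N.src a) (N.inTail e))
    (h' := fun t => (L.s • L.g (L.y t)) (N.src a) (N.inTail e)) (t0 := L.t0) L.hr
    (fun t _ => hasDerivAt_coord (L.hy t) _ _)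
    (fun t ht => by
      intro h0
      apply hne
      rw [L.hR t ht]
      have : L.s • (L.g (L.y t) (N.src a) (N.inTail e)) = 0 := h0
      exact (smul_eq_zero.1 this).resolve_left L.hs.ne')
  refine (L.matchL ht θ c ?_).1 hc
  intro d β
  filter_upwards [htg (N.inTail (β a e))] with u hu h1
  apply hu
  have h2 := congrArg (fun ζ : N.InSp V c => ζ.2 a e) h1
  exact h2

/-- Equal moving nodes have matching inputs. -/
theorem match_moving [∀ θ, Nontrivial (V θ)] {θ : N.NT} {c d : N.Node θ} (hc : ¬ L.R θ c)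
    (hcd : L.E θ c d) : ∃ β : N.InIso c d, ∀ (a : N.AT) (e : N.In c a),
      L.E (N.src a) (N.inTail e) (N.inTail (β a e)) := by
  obtain ⟨t, ht, htg⟩ := good_time (W := V θ) (ι := N.Node θ)
    (fun i u => L.y u θ i) (fun i => ((prj (V := V) θ i).continuous.comp L.ycont))
    (h := fun t => L.y t θ c)
    (h' := fun t => (L.s • L.g (L.y t)) θ c) (t0 := L.t0) L.hr
    (fun t _ => hasDerivAt_coord (L.hy t) _ _)
    (fun t ht => by
      intro h0
      apply hc
      rw [L.hR t ht]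
      have : L.s • (L.g (L.y t) θ c) = 0 := h0
      exact (smul_eq_zero.1 this).resolve_left L.hs.ne')
  obtain ⟨β, hβ⟩ := (L.matchL ht θ c (by
    intro d β
    filter_upwards [htg d] with u hu h1
    apply hu
    have h2 := congrArg (fun ζ : N.InSp V c => ζ.1) h1
    exact h2)).2 d hcd
  refine ⟨β, fun a e => ?_⟩
  rw [L.hE t ht]
  have h2 := congrArg (fun ζ : N.InSp V c => ζ.2 a e) hβ
  exact h2.symm

end Loc

end Network

end H340Sync
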