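import Pool.Agent.Helper340_sync.Core

/-!
Rigid synchrony patterns of hyperbolic periodic orbits are balanced (core theorem).
-/

open Set MeasureTheory Filter Topology intervalIntegral
open scoped BoundedContinuousFunction

namespace H340Sync

namespace Network

variable {N : Network} {V : N.NT → Type} [∀ θ, NormedAddCommGroup (V θ)]
  [∀ θ, NormedSpace ℝ (V θ)]

section

variable (N V) in
/-- ball of perturbations, all times -/
def UU (r : ℝ) : Set (PP N V × ℝ) := {z | dist z.1 PP.zero < r}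

theorem mem_UU (r : ℝ) (z : PP N V × ℝ) : z ∈ UU N V r ↔ dist z.1 PP.zero < r := by
  unfold UU
  rw [Set.mem_ofPred_eq]

theorem UU_open (r : ℝ) : IsOpen (UU N V r) :=
  isOpen_lt (continuous_fst.dist continuous_const) continuous_const

end

variable [∀ θ, FiniteDimensional ℝ (V θ)]

/-- Data of a family of perturbed orbits over a ball in the space of perturbations. -/
structure Fam (N : Network) (V : N.NT → Type) [∀ θ, NormedAddCommGroup (V θ)]
    [∀ θ, NormedSpace ℝ (V θ)] [∀ θ, FiniteDimensional ℝ (V θ)] where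
  /-- vector field -/
  f : N.State V → N.State V
  hf : ContDiff ℝ 1 f
  adm : Admissible f
  /-- radius -/
  r : ℝ
  hr : 0 < r
  /-- orbits -/
  Y : PP N V → ℝ → N.State V
  /-- periods -/
  S : PP N V → ℝ
  hS : ∀ q, dist q PP.zero ≤ r → 0 < S q
  hY : ∀ q, dist q PP.zero ≤ r → ∀ t, HasDerivAt (Y q) (S q • (f (Y q t) + q.1.1 (Y q t))) t
  hYp : ∀ q, dist q PP.zero ≤ r → ∀ t, Y q (t + 1) = Y q t
  /-- constant -/
  C : ℝ
  hC : 0 ≤ C
  hL : ∀ q q', dist q PP.zero ≤ r → dist q' PP.zero ≤ r → ∀ t,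
    ‖Y q t - Y q' t‖ ≤ C * ∫ u in (0 : ℝ)..1, ‖q.1.1 (Y q' u) - q'.1.1 (Y q' u)‖
  hc : ContinuousOn (fun z : PP N V × ℝ => Y z.1 z.2) (UU N V r)

namespace Fam

variable (A : Fam N V)

/-- the speed -/
def H (z : PP N V × ℝ) : N.State V := A.f (A.Y z.1 z.2) + z.1.1.1 (A.Y z.1 z.2)

theorem hH : ContinuousOn A.H (UU N V A.r) := by
  refine (A.hf.continuous.comp_continuousOn A.hc).add ?_
  have h1 : Continuous fun p : (N.State V →ᵇ N.State V) × N.State V => p.1 p.2 :=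
    continuous_eval
  have h2 : Continuous fun z : PP N V × ℝ => z.1.1.1 :=
    continuous_fst.comp (continuous_subtype_val.comp continuous_fst)
  exact h1.comp_continuousOn (h2.continuousOn.prodMk A.hc)

/-- index set of the facts -/
abbrev Idx (N : Network) : Type := (Σ θ, N.Node θ × N.Node θ) ⊕ (Σ θ, N.Node θ)

/-- the facts about equal nodes -/
def FE (θ : N.NT) (c d : N.Node θ) : Set (PP N V × ℝ) :=
  {z | A.Y z.1 z.2 θ c = A.Y z.1 z.2 θ d}

/-- the facts about resting nodes -/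
def FR (θ : N.NT) (c : N.Node θ) : Set (PP N V × ℝ) := {z | A.H z θ c = 0}

theorem mem_FE (θ : N.NT) (c d : N.Node θ) (z : PP N V × ℝ) :
    z ∈ A.FE θ c d ↔ A.Y z.1 z.2 θ c = A.Y z.1 z.2 θ d := by
  unfold FE
  rw [Set.mem_ofPred_eq]

theorem mem_FR (θ : N.NT) (c : N.Node θ) (z : PP N V × ℝ) :
    z ∈ A.FR θ c ↔ A.H z θ c = 0 := by
  unfold FR
  rw [Set.mem_ofPred_eq]

theorem FE_open (θ : N.NT) (c d : N.Node θ) : IsOpen (UU N V A.r \ A.FE θ c d) := by
  have h1 : ContinuousOn (fun z : PP N V × ℝ => A.Y z.1 z.2 θ c - A.Y z.1 z.2 θ d)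
      (UU N V A.r) :=
    ((prj (V := V) θ c).continuous.comp_continuousOn A.hc).sub
      ((prj (V := V) θ d).continuous.comp_continuousOn A.hc)
  have h2 := h1.isOpen_inter_preimage (UU_open A.r) (isOpen_compl_singleton (x := (0 : V θ)))
  have e : UU N V A.r \ A.FE θ c d = UU N V A.r ∩ (fun z : PP N V × ℝ =>
      A.Y z.1 z.2 θ c - A.Y z.1 z.2 θ d) ⁻¹' {0}ᶜ := by
    ext z
    rw [Set.mem_sdiff, mem_inter_iff, mem_FE, mem_preimage, mem_compl_iff, mem_singleton_iff,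
      sub_eq_zero]
  rw [e]
  exact h2

theorem FR_open (θ : N.NT) (c : N.Node θ) : IsOpen (UU N V A.r \ A.FR θ c) := by
  have h1 : ContinuousOn (fun z : PP N V × ℝ => A.H z θ c) (UU N V A.r) :=
    (prj (V := V) θ c).continuous.comp_continuousOn A.hH
  have h2 := h1.isOpen_inter_preimage (UU_open A.r) (isOpen_compl_singleton (x := (0 : V θ)))
  have e : UU N V A.r \ A.FR θ c = UU N V A.r ∩ (fun z : PP N V × ℝ => A.H z θ c) ⁻¹' {0}ᶜ := by
    ext z
    rw [Set.mem_sdiff, mem_inter_iff, mem_FR, mem_preimage, mem_compl_iff, mem_singleton_iff]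
  rw [e]
  exact h2

/-- the facts -/
def F : Idx N → Set (PP N V × ℝ)
  | Sum.inl i => A.FE i.1 i.2.1 i.2.2
  | Sum.inr i => A.FR i.1 i.2

theorem F_open (i : Idx N) : IsOpen (UU N V A.r \ A.F i) := by
  rcases i with ⟨θ, c, d⟩ | ⟨θ, c⟩
  · exact A.FE_open θ c d
  · exact A.FR_open θ c

/-- Near some perturbation and some time all facts are decided. -/
theorem exists_decided : ∃ (q : PP N V) (t0 r : ℝ), 0 < r ∧
    (∀ q' : PP N V, dist q' q < r → dist q' PP.zero < A.r) ∧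
    ∀ (i : Idx N) (q' : PP N V) (t : ℝ), dist q' q < r → t ∈ Metric.ball t0 r →
      ((q, t0) ∈ A.F i ↔ (q', t) ∈ A.F i) := by
  have hUne : (UU N V A.r).Nonempty := by
    refine ⟨(PP.zero, 0), ?_⟩
    rw [mem_UU, dist_self]
    exact A.hr
  obtain ⟨U', hU'U, hU'o, hne, hdec⟩ := decide_facts A.F _ (UU_open A.r) hUne A.F_open
  obtain ⟨z0, hz0⟩ := hne
  obtain ⟨r, hr, hball⟩ := Metric.isOpen_iff.1 hU'o z0 hz0
  have hmem : ∀ (q' : PP N V) (t : ℝ), dist q' z0.1 < r → t ∈ Metric.ball z0.2 r →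
      (q', t) ∈ U' := by
    intro q' t hq' ht
    apply hball
    rw [Metric.mem_ball, Prod.dist_eq]
    exact max_lt hq' ht
  have hiff : ∀ i, ∀ z1 ∈ U', ∀ z2 ∈ U', (z1 ∈ A.F i ↔ z2 ∈ A.F i) := by
    intro i z1 h1 z2 h2
    rcases hdec i with h | h
    · exact ⟨fun _ => h h2, fun _ => h h1⟩
    · rw [Set.disjoint_left] at h
      exact ⟨fun h' => absurd h' (h h1), fun h' => absurd h' (h h2)⟩
  refine ⟨z0.1, z0.2, r, hr, fun q' hq' => ?_, fun i q' t hq' ht => ?_⟩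
  · exact (mem_UU A.r (q', z0.2)).1 (hU'U (hmem q' z0.2 hq' (Metric.mem_ball_self hr)))
  · exact hiff i z0 hz0 (q', t) (hmem q' t hq' ht)

theorem exists_decided' : ∃ (q : PP N V) (t0 r : ℝ), 0 < r ∧
    (∀ q' : PP N V, dist q' q < r → dist q' PP.zero < A.r) ∧
    (∀ (θ : N.NT) (c d : N.Node θ) (q' : PP N V) (t : ℝ), dist q' q < r →
      t ∈ Metric.ball t0 r → (A.Y q t0 θ c = A.Y q t0 θ d ↔ A.Y q' t θ c = A.Y q' t θ d)) ∧
    ∀ (θ : N.NT) (c : N.Node θ) (q' : PP N V) (t : ℝ), dist q' q < r →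
      t ∈ Metric.ball t0 r → (A.H (q, t0) θ c = 0 ↔ A.H (q', t) θ c = 0) := by
  obtain ⟨q, t0, r, hr, h1, h2⟩ := A.exists_decided
  refine ⟨q, t0, r, hr, h1, fun θ c d q' t hq' ht => ?_, fun θ c q' t hq' ht => ?_⟩
  · have h3 := h2 (Sum.inl ⟨θ, c, d⟩) q' t hq' ht
    simp only [F] at h3
    rwa [mem_FE, mem_FE] at h3
  · have h3 := h2 (Sum.inr ⟨θ, c⟩) q' t hq' ht
    simp only [F] at h3
    rwa [mem_FR, mem_FR] at h3

theorem pert_data {q : PP N V} {r t0 : ℝ} (hr : 0 < r)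
    (h1 : ∀ q' : PP N V, dist q' q < r → dist q' PP.zero < A.r)
    (h2 : ∀ (θ : N.NT) (c d : N.Node θ) (q' : PP N V) (t : ℝ), dist q' q < r →
      t ∈ Metric.ball t0 r → (A.Y q t0 θ c = A.Y q t0 θ d ↔ A.Y q' t θ c = A.Y q' t θ d))
    (h3 : ∀ (θ : N.NT) (c : N.Node θ) (q' : PP N V) (t : ℝ), dist q' q < r →
      t ∈ Metric.ball t0 r → (A.H (q, t0) θ c = 0 ↔ A.H (q', t) θ c = 0))
    {b : N.State V → N.State V} (hb1 : ContDiff ℝ 1 b) (hb2 : AdmissibleC1 b) (hb3 : BL b) :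
    ∃ η0 > 0, ∀ η : ℝ, 0 < η → η < η0 → ∃ (z : ℝ → N.State V) (s' : ℝ), 0 < s' ∧
      (∀ t, HasDerivAt z (s' • ((A.f (z t) + q.1.1 (z t)) + η • b (z t))) t) ∧
      (∀ t, ‖z t - A.Y q t‖ ≤ η * (A.C * ∫ u in (0 : ℝ)..1, ‖b (A.Y q u)‖)) ∧
      (∀ t ∈ Metric.ball t0 r, ∀ (θ : N.NT) (c d : N.Node θ), A.Y q t0 θ c = A.Y q t0 θ d →
        z t θ c = z t θ d) ∧
      (∀ t ∈ Metric.ball t0 r, ∀ (θ : N.NT) (c : N.Node θ), A.H (q, t0) θ c = 0 →
        (A.f (z t) + q.1.1 (z t)) θ c + η • b (z t) θ c = 0) := by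
  obtain ⟨K, hK, hmove⟩ := q.move hb1 hb2 hb3
  refine ⟨r / K, div_pos hr hK, fun η hη hηr => ?_⟩
  obtain ⟨q', hq', hq'u⟩ := hmove η hη
  have hq'r : dist q' q < r := by
    refine hq'.trans_lt ?_
    rwa [lt_div_iff₀ hK] at hηr
  have hqε : dist q PP.zero ≤ A.r := (h1 q (by rw [dist_self]; exact hr)).le
  have hq'ε : dist q' PP.zero ≤ A.r := (h1 q' hq'r).le
  refine ⟨A.Y q', A.S q', A.hS q' hq'ε, fun t => ?_, fun t => ?_, ?_, ?_⟩
  · have h4 := A.hY q' hq'ε t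
    rw [hq'u, ← add_assoc] at h4
    exact h4
  · refine (A.hL q' q hq'ε hqε t).trans (le_of_eq ?_)
    have e : ∀ u, ‖q'.1.1 (A.Y q u) - q.1.1 (A.Y q u)‖ = η * ‖b (A.Y q u)‖ := by
      intro u
      rw [hq'u, add_sub_cancel_left, norm_smul, Real.norm_eq_abs, abs_of_pos hη]
    simp only [e]
    rw [intervalIntegral.integral_const_mul, mul_left_comm]
  · intro t ht θ c d hcd
    exact (h2 θ c d q' t hq'r ht).1 hcd
  · intro t ht θ c hc
    have h5 : A.H (q', t) θ c = 0 := (h3 θ c q' t hq'r ht).1 hc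
    have h6 : A.H (q', t) = A.f (A.Y q' t) + q'.1.1 (A.Y q' t) := rfl
    rw [h6, hq'u, ← add_assoc] at h5
    exact h5

/-- The decided situation. -/
theorem exists_loc : ∃ (q : PP N V) (L : Loc N V), dist q PP.zero < A.r ∧ L.y = A.Y q := by
  obtain ⟨q, t0, r, hr, h1, h2, h3⟩ := A.exists_decided'
  have hq0 : dist q q < r := by rw [dist_self]; exact hr
  have hq1 : dist q PP.zero < A.r := h1 q hq0
  exact ⟨q,
    { g := fun u => A.f u + q.1.1 u
      hg := A.hf.add q.contDiff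
      adm := A.adm.add q.2.2.adm
      y := A.Y q
      s := A.S q
      hs := A.hS q hq1.le
      hy := A.hY q hq1.le
      hyp := A.hYp q hq1.le
      t0 := t0
      r := r
      hr := hr
      R := fun θ c => A.H (q, t0) θ c = 0
      E := fun θ c d => A.Y q t0 θ c = A.Y q t0 θ d
      hE := fun t ht θ c d => h2 θ c d q t hq0 ht
      hR := fun t ht θ c => h3 θ c q t hq0 ht
      C := A.C
      hC := A.hC
      pert := fun b hb1 hb2 hb3 => A.pert_data hr h1 h2 h3 hb1 hb2 hb3 }, hq1, rfl⟩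

/-- If the perturbed orbits have exactly the synchrony pattern `B`, then `B` is balanced. -/
theorem balanced [∀ θ, Nontrivial (V θ)] (B : N.Rel)
    (h1 : ∀ q, dist q PP.zero ≤ A.r → ∀ θ (c d : N.Node θ), B θ c d →
      ∀ t, A.Y q t θ c = A.Y q t θ d)
    (h2 : ∀ q, dist q PP.zero ≤ A.r → ∀ θ (c d : N.Node θ),
      (∀ t, A.Y q t θ c = A.Y q t θ d) → B θ c d) : Balanced B := by
  obtain ⟨q, L, hq, hL⟩ := A.exists_loc
  intro θ c d hcd
  have hE : L.E θ c d := by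
    rw [L.hE _ L.mem0, hL]
    exact h1 q hq.le θ c d hcd _
  obtain ⟨β, hβ⟩ := L.balanced θ c d hE
  refine ⟨β, fun a e => ?_⟩
  refine h2 q hq.le _ _ _ fun t => ?_
  have := L.sync_all _ _ _ (hβ a e) t
  rwa [hL] at this

end Fam

end Network

end H340Sync
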