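import Pool.Agent.Helper340_sync.Linear

/-!
Persistence of a periodic orbit with simple multiplier one under `C^1`-small perturbations,
with the Lipschitz estimate in terms of the integral of the perturbation along the orbit.
-/

open Set MeasureTheory intervalIntegral Filter Topology
open scoped NNReal BoundedContinuousFunction

namespace H340Sync

variable {E : Type*} [NormedAddCommGroup E] [NormedSpace ℝ E] [FiniteDimensional ℝ E]

/-- A periodic orbit, normalised to period one, with its nondegenerate linearisation. -/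
structure Orb (E : Type*) [NormedAddCommGroup E] [NormedSpace ℝ E] [FiniteDimensional ℝ E] where
  /-- the vector field -/
  f : E → E
  hf : ContDiff ℝ 1 f
  /-- the period -/
  T : ℝ
  hT : 0 < T
  /-- the normalised orbit -/
  x : ℝ → E
  hx : ∀ t, HasDerivAt x (T • f (x t)) t
  hxp : ∀ t, x (t + 1) = x t
  /-- linearisation -/
  L : Lin E
  hLA : ∀ t, L.A t = T • fderiv ℝ f (x t)
  hLv : ∀ t, L.v t = f (x t)

namespace Orb

variable (O : Orb E)

theorem xcont : Continuous O.x := continuous_iff_continuousAt.2 fun t => (O.hx t).continuousAt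

/-- `p` is of class `C^1` and `ε`-small together with its derivative. -/
def Small (ε : ℝ) (p : E → E) : Prop :=
  ContDiff ℝ 1 p ∧ (∀ z, ‖p z‖ ≤ ε) ∧ ∀ z, ‖fderiv ℝ p z‖ ≤ ε

/-- `y` is a normalised periodic orbit of `f + p` with period `s` close to the given one. -/
def NS (ρ : ℝ) (p : E → E) (y : ℝ → E) (s : ℝ) : Prop :=
  (∀ t, HasDerivAt y (s • (O.f (y t) + p (y t))) t) ∧ (∀ t, y (t + 1) = y t) ∧
    O.L.l (y 0) = O.L.l (O.x 0) ∧ (∀ t, ‖y t - O.x t‖ ≤ ρ) ∧ |s - O.T| ≤ ρ

/-- The remainder. -/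
noncomputable def rem (p : E → E) (s1 : ℝ) (y1 : E) (s2 : ℝ) (y2 : E) (t : ℝ) : E :=
  s1 • (O.f y1 + p y1) - s2 • (O.f y2 + p y2) - O.L.A t (y1 - y2) - (s1 - s2) • O.L.v t

theorem key {κ : ℝ} (hκ : 0 < κ) : ∃ ρ, 0 < ρ ∧ ρ ≤ O.T / 2 ∧ ∃ ε0, 0 < ε0 ∧ ∀ ρ' ≤ ρ, ∀ p,
    Small ε0 p → ∀ s1 s2 : ℝ, |s1 - O.T| ≤ ρ' → |s2 - O.T| ≤ ρ' → ∀ t y1 y2,
      ‖y1 - O.x t‖ ≤ ρ' → ‖y2 - O.x t‖ ≤ ρ' →
      ‖O.rem p s1 y1 s2 y2 t‖ ≤ κ * ‖y1 - y2‖ + κ * |s1 - s2| := by
  obtain ⟨R, hR0, hR⟩ := bdd_of_periodic O.xcont O.hxp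
  set K : Set E := Metric.closedBall 0 (R + 1) with hK
  have hKc : IsCompact K := isCompact_closedBall _ _
  have hdf : Continuous (fderiv ℝ O.f) := O.hf.continuous_fderiv one_ne_zero
  obtain ⟨D, hD⟩ := hKc.exists_bound_of_continuousOn (f := fderiv ℝ O.f) hdf.continuousOn
  have hD0 : 0 ≤ D := (norm_nonneg _).trans (hD 0 (by
    rw [hK, Metric.mem_closedBall, dist_self]; linarith))
  have hT := O.hT
  have h1 := hKc.uniformContinuousOn_of_continuous (f := fderiv ℝ O.f) hdf.continuousOn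
  have h2 := hKc.uniformContinuousOn_of_continuous (f := O.f) O.hf.continuous.continuousOn
  rw [Metric.uniformContinuousOn_iff_le] at h1 h2
  set κ1 : ℝ := κ / (8 * O.T) with hκ1
  have hκ1p : 0 < κ1 := by positivity
  obtain ⟨δ1, hδ1, h1⟩ := h1 κ1 hκ1p
  obtain ⟨δ2, hδ2, h2⟩ := h2 (κ / 2) (by positivity)
  set ρ : ℝ := min (min (min δ1 δ2) 1) (min (O.T / 2) (κ / (4 * (D + 1)))) with hρ
  have hρ0 : 0 < ρ := by
    rw [hρ]
    refine lt_min (lt_min (lt_min hδ1 hδ2) one_pos) (lt_min (by positivity) (by positivity))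
  have hρ1 : ρ ≤ δ1 := (min_le_left _ _).trans ((min_le_left _ _).trans (min_le_left _ _))
  have hρ2 : ρ ≤ δ2 := (min_le_left _ _).trans ((min_le_left _ _).trans (min_le_right _ _))
  have hρ3 : ρ ≤ 1 := (min_le_left _ _).trans (min_le_right _ _)
  have hρ4 : ρ ≤ O.T / 2 := (min_le_right _ _).trans (min_le_left _ _)
  have hρ5 : ρ ≤ κ / (4 * (D + 1)) := (min_le_right _ _).trans (min_le_right _ _)
  refine ⟨ρ, hρ0, hρ4, min (κ / 2) κ1, lt_min (by positivity) hκ1p, ?_⟩
  intro ρ' hρ' p hp s1 s2 hs1 hs2 t y1 y2 hy1 hy2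
  replace hs1 := hs1.trans hρ'
  replace hs2 := hs2.trans hρ'
  replace hy1 := hy1.trans hρ'
  replace hy2 := hy2.trans hρ'
  have hxK : O.x t ∈ K := by
    rw [hK, mem_closedBall_zero_iff]; linarith [hR t]
  have hball : ∀ z ∈ Metric.closedBall (O.x t) ρ, z ∈ K := by
    intro z hz
    rw [hK, mem_closedBall_zero_iff]
    rw [Metric.mem_closedBall, dist_eq_norm] at hz
    have := norm_add_le (z - O.x t) (O.x t)
    rw [sub_add_cancel] at this
    linarith [hR t]
  have hs1T : |s1| ≤ 2 * O.T := by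
    have : |s1| ≤ |s1 - O.T| + |O.T| := by
      have := abs_add_le (s1 - O.T) O.T
      simpa using this
    rw [abs_of_pos hT] at this
    linarith
  -- first part
  have hA : ‖s1 • (O.f y1 + p y1) - s1 • (O.f y2 + p y2) - O.L.A t (y1 - y2)‖
      ≤ κ * ‖y1 - y2‖ := by
    have hmv := (convex_closedBall (O.x t) ρ).norm_image_sub_le_of_norm_hasFDerivWithin_le
      (f := fun z => s1 • (O.f z + p z) - O.L.A t z)
      (f' := fun z => s1 • (fderiv ℝ O.f z + fderiv ℝ p z) - O.L.A t) (C := κ)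
      (x := y2) (y := y1) ?_ ?_ ?_ ?_
    · have e : s1 • (O.f y1 + p y1) - s1 • (O.f y2 + p y2) - O.L.A t (y1 - y2) =
          s1 • (O.f y1 + p y1) - O.L.A t y1 - (s1 • (O.f y2 + p y2) - O.L.A t y2) := by
        rw [map_sub]; abel
      rw [e]
      exact hmv
    · intro z _
      have e1 : HasFDerivAt O.f (fderiv ℝ O.f z) z :=
        (O.hf.differentiable one_ne_zero z).hasFDerivAt
      have e2 : HasFDerivAt p (fderiv ℝ p z) z :=
        (hp.1.differentiable one_ne_zero z).hasFDerivAt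
      exact (((e1.add e2).const_smul s1).sub (O.L.A t).hasFDerivAt).hasFDerivWithinAt
    · intro z hz
      have hzK := hball z hz
      rw [Metric.mem_closedBall] at hz
      rw [O.hLA]
      have e : s1 • (fderiv ℝ O.f z + fderiv ℝ p z) - O.T • fderiv ℝ O.f (O.x t) =
          s1 • (fderiv ℝ O.f z - fderiv ℝ O.f (O.x t)) + s1 • fderiv ℝ p z +
            (s1 - O.T) • fderiv ℝ O.f (O.x t) := by
        rw [smul_sub, smul_add, sub_smul]; abel
      rw [e]
      have b1 : ‖s1 • (fderiv ℝ O.f z - fderiv ℝ O.f (O.x t))‖ ≤ 2 * O.T * κ1 := by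
        rw [norm_smul, Real.norm_eq_abs]
        refine mul_le_mul hs1T ?_ (norm_nonneg _) (by positivity)
        rw [← dist_eq_norm]
        exact h1 z hzK (O.x t) hxK (hz.trans hρ1)
      have b2 : ‖s1 • fderiv ℝ p z‖ ≤ 2 * O.T * κ1 := by
        rw [norm_smul, Real.norm_eq_abs]
        exact mul_le_mul hs1T ((hp.2.2 z).trans (min_le_right _ _)) (norm_nonneg _) (by positivity)
      have b3 : ‖(s1 - O.T) • fderiv ℝ O.f (O.x t)‖ ≤ κ / 4 := by
        rw [norm_smul, Real.norm_eq_abs]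
        have : |s1 - O.T| * ‖fderiv ℝ O.f (O.x t)‖ ≤ κ / (4 * (D + 1)) * (D + 1) := by
          refine mul_le_mul (hs1.trans hρ5) ?_ (norm_nonneg _) (by positivity)
          linarith [hD _ hxK]
        refine this.trans (le_of_eq ?_)
        field_simp
      have b4 : 2 * O.T * κ1 = κ / 4 := by rw [hκ1]; field_simp; ring
      rw [b4] at b1 b2
      refine (norm_add_le _ _).trans ?_
      have := norm_add_le (s1 • (fderiv ℝ O.f z - fderiv ℝ O.f (O.x t))) (s1 • fderiv ℝ p z)
      linarith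
    · rw [Metric.mem_closedBall, dist_eq_norm]; exact hy2
    · rw [Metric.mem_closedBall, dist_eq_norm]; exact hy1
  have hB : ‖(s1 - s2) • (O.f y2 + p y2 - O.L.v t)‖ ≤ κ * |s1 - s2| := by
    rw [norm_smul, Real.norm_eq_abs, mul_comm]
    refine mul_le_mul_of_nonneg_right ?_ (abs_nonneg _)
    rw [O.hLv]
    have e : O.f y2 + p y2 - O.f (O.x t) = (O.f y2 - O.f (O.x t)) + p y2 := by abel
    rw [e]
    have c1 : ‖O.f y2 - O.f (O.x t)‖ ≤ κ / 2 := by
      rw [← dist_eq_norm]
      refine h2 y2 (hball y2 ?_) (O.x t) hxK ?_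
      · rw [Metric.mem_closedBall, dist_eq_norm]; exact hy2
      · rw [dist_eq_norm]; exact hy2.trans hρ2
    have c2 : ‖p y2‖ ≤ κ / 2 := (hp.2.1 y2).trans (min_le_left _ _)
    exact (norm_add_le _ _).trans (by linarith)
  have e : O.rem p s1 y1 s2 y2 t =
      (s1 • (O.f y1 + p y1) - s1 • (O.f y2 + p y2) - O.L.A t (y1 - y2)) +
        (s1 - s2) • (O.f y2 + p y2 - O.L.v t) := by
    unfold rem
    rw [smul_sub, sub_smul s1 s2 (O.f y2 + p y2)]
    abel
  rw [e]
  exact (norm_add_le _ _).trans (add_le_add hA hB)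

end Orb

theorem Lin.Sol.sub {L : Lin E} {w1 w2 : ℝ → E} {s1 s2 : ℝ} {r1 r2 : ℝ → E}
    (h1 : L.Sol w1 s1 r1) (h2 : L.Sol w2 s2 r2) :
    L.Sol (fun t => w1 t - w2 t) (s1 - s2) (fun t => r1 t - r2 t) := by
  refine ⟨fun t => ?_, fun t => by
    simp only; rw [h1.2.1, h2.2.1], by
    rw [map_sub, h1.2.2, h2.2.2, sub_zero]⟩
  have := (h1.1 t).sub (h2.1 t)
  have e : L.A t (w1 t - w2 t) + ((s1 - s2) • L.v t + (r1 t - r2 t)) =
      L.A t (w1 t) + (s1 • L.v t + r1 t) - (L.A t (w2 t) + (s2 • L.v t + r2 t)) := by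
    rw [map_sub, sub_smul]; abel
  rw [e]
  exact this

namespace Orb

variable (O : Orb E)

/-- **Persistence.** -/
theorem persist : ∃ C ρ0 : ℝ, 0 < C ∧ 0 < ρ0 ∧ ρ0 ≤ O.T / 2 ∧ ∀ ρ, 0 < ρ → ρ ≤ ρ0 →
    ∃ ε0, 0 < ε0 ∧
    (∀ p, Small ε0 p → ∃ y s, O.NS ρ p y s) ∧
    (∀ p1 p2 y1 s1 y2 s2, Small ε0 p1 → Small ε0 p2 → O.NS ρ p1 y1 s1 → O.NS ρ p2 y2 s2 →
      (∀ t, ‖y1 t - y2 t‖ ≤ C * ∫ u in (0 : ℝ)..1, ‖p1 (y2 u) - p2 (y2 u)‖) ∧
        |s1 - s2| ≤ C * ∫ u in (0 : ℝ)..1, ‖p1 (y2 u) - p2 (y2 u)‖) := by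
  have : CompleteSpace E := FiniteDimensional.complete ℝ E
  obtain ⟨C1, hC1, hest⟩ := O.L.sol_est
  have hT := O.hT
  set κ : ℝ := 1 / (4 * C1) with hκ
  have hκ0 : 0 < κ := by positivity
  obtain ⟨ρ0, hρ0, hρT, ε1, hε1, hkey⟩ := O.key hκ0
  refine ⟨4 * C1 * O.T, ρ0, by positivity, hρ0, hρT, ?_⟩
  intro ρ hρ hρρ
  set ε0 : ℝ := min ε1 (ρ / (2 * C1 * O.T)) with hε0
  have hε0p : 0 < ε0 := lt_min hε1 (by positivity)
  have hC1κ : C1 * (2 * κ) = 1 / 2 := by rw [hκ]; field_simp; norm_num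
  have hAc : Continuous O.L.A := O.L.hA
  have hvc : Continuous O.L.v := continuous_iff_continuousAt.2 fun t => (O.L.hv t).continuousAt
  refine ⟨ε0, hε0p, ?_, ?_⟩
  · -- existence
    intro p hp
    have hp1 : Small ε1 p := ⟨hp.1, fun z => (hp.2.1 z).trans (min_le_left _ _),
      fun z => (hp.2.2 z).trans (min_le_left _ _)⟩
    set S : Set ((ℝ →ᵇ E) × ℝ) := {q | (∀ t, q.1 (t + 1) = q.1 t) ∧
      O.L.l (q.1 0) = O.L.l (O.x 0) ∧ (∀ t, ‖q.1 t - O.x t‖ ≤ ρ) ∧ |q.2 - O.T| ≤ ρ} with hS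
    have hSc : IsClosed S := by
      have e1 : ∀ t : ℝ, Continuous fun q : (ℝ →ᵇ E) × ℝ => q.1 t := fun t =>
        (continuous_eval_const (F := ℝ →ᵇ E) t).comp continuous_fst
      simp only [hS, ofPred_and, ofPred_forall]
      refine IsClosed.inter (isClosed_iInter fun t => isClosed_eq (e1 _) (e1 _)) ?_
      refine IsClosed.inter (isClosed_eq (O.L.l.continuous.comp (e1 0)) continuous_const) ?_
      refine IsClosed.inter (isClosed_iInter fun t => isClosed_le ?_ continuous_const) ?_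
      · exact ((e1 t).sub continuous_const).norm
      · exact isClosed_le (continuous_snd.sub continuous_const).abs continuous_const
    set r : (ℝ →ᵇ E) × ℝ → ℝ → E := fun q t =>
      O.rem p q.2 (q.1 t) O.T (O.x t) t + O.T • p (O.x t) with hr
    have hrc : ∀ q, Continuous (r q) := by
      intro q
      have c1 : Continuous fun t => O.f (q.1 t) := O.hf.continuous.comp q.1.continuous
      have c2 : Continuous fun t => p (q.1 t) := hp.1.continuous.comp q.1.continuous
      have c3 : Continuous fun t => O.f (O.x t) := O.hf.continuous.comp O.xcont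
      have c4 : Continuous fun t => p (O.x t) := hp.1.continuous.comp O.xcont
      simp only [hr, rem]
      exact (((((c1.add c2).const_smul _).sub ((c3.add c4).const_smul _)).sub
        (hAc.clm_apply (q.1.continuous.sub O.xcont))).sub (hvc.const_smul _)).add
        (c4.const_smul _)
    have hrp : ∀ q ∈ S, ∀ t, r q (t + 1) = r q t := by
      intro q hq t
      simp only [hr, rem]
      rw [hq.1, O.hxp, O.L.hAp, O.L.hvp]
    have hstep : ∀ q ∈ S, ∃ q' : (ℝ →ᵇ E) × ℝ,
        O.L.Sol (fun t => q'.1 t - O.x t) (q'.2 - O.T) (r q) := by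
      intro q hq
      obtain ⟨w, s, hw⟩ := O.L.exists_sol (hrc q) (hrp q hq)
      have hwc : Continuous w := continuous_iff_continuousAt.2 fun t => (hw.1 t).continuousAt
      have hyc : Continuous fun t => O.x t + w t := O.xcont.add hwc
      obtain ⟨K, _, hK⟩ := bdd_of_periodic hyc (fun t => by rw [O.hxp, hw.2.1])
      refine ⟨(BoundedContinuousFunction.ofNormedAddCommGroup _ hyc K hK, O.T + s), ?_⟩
      simpa using hw
    choose! F hF using hstep
    have hmaps : MapsTo F S S := by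
      intro q hq
      have hsol := hF q hq
      have hb : ∀ t, ‖r q t‖ ≤ 2 * κ * ρ + O.T * ε0 := by
        intro t
        have h1 := hkey ρ hρρ p hp1 q.2 O.T hq.2.2.2 (by simpa using hρ.le) t (q.1 t) (O.x t)
          (hq.2.2.1 t) (by simpa using hρ.le)
        have h2 : ‖O.T • p (O.x t)‖ ≤ O.T * ε0 := by
          rw [norm_smul, Real.norm_eq_abs, abs_of_pos hT]
          exact mul_le_mul_of_nonneg_left (hp.2.1 _) hT.le
        refine (norm_add_le _ _).trans (add_le_add (h1.trans ?_) h2)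
        have h3 := mul_le_mul_of_nonneg_left (hq.2.2.1 t) hκ0.le
        have h4 := mul_le_mul_of_nonneg_left hq.2.2.2 hκ0.le
        linarith
      have hI : C1 * ∫ u in (0 : ℝ)..1, ‖r q u‖ ≤ ρ := by
        have h1 : ∫ u in (0 : ℝ)..1, ‖r q u‖ ≤ ∫ u in (0 : ℝ)..1, (2 * κ * ρ + O.T * ε0) :=
          intervalIntegral.integral_mono_on (by norm_num) ((hrc q).norm.intervalIntegrable _ _)
            (continuous_const.intervalIntegrable _ _) fun u _ => hb u
        rw [intervalIntegral.integral_const, smul_eq_mul, sub_zero, one_mul] at h1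
        have h2 := mul_le_mul_of_nonneg_left h1 hC1.le
        refine h2.trans ?_
        have h3 : C1 * (O.T * ε0) ≤ ρ / 2 := by
          have h4 : ε0 ≤ ρ / (2 * C1 * O.T) := min_le_right _ _
          have h5 := mul_le_mul_of_nonneg_left h4 (mul_pos hC1 hT).le
          have h6 : C1 * O.T * (ρ / (2 * C1 * O.T)) = ρ / 2 := by field_simp
          rw [h6] at h5
          linarith
        have h7 : C1 * (2 * κ * ρ + O.T * ε0) = C1 * (2 * κ) * ρ + C1 * (O.T * ε0) := by ring
        rw [h7, hC1κ]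
        linarith
      obtain ⟨g1, g2⟩ := hest (r q) _ _ (hrc q) hsol
      refine ⟨fun t => ?_, ?_, fun t => (g1 t).trans hI, g2.trans hI⟩
      · have h1 := hsol.2.1 t
        simp only [O.hxp] at h1
        exact sub_left_injective h1
      · have h1 := hsol.2.2
        rw [map_sub, sub_eq_zero] at h1
        exact h1
    have hcontr : ContractingWith (1 / 2 : ℝ≥0) (hmaps.restrict F S S) := by
      refine ⟨by
        rw [← NNReal.coe_lt_coe]; norm_num, LipschitzWith.of_dist_le_mul ?_⟩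
      rintro ⟨q1, hq1⟩ ⟨q2, hq2⟩
      have hs := (hF q1 hq1).sub (hF q2 hq2)
      have hc := (hrc q1).sub (hrc q2)
      obtain ⟨g1, g2⟩ := hest _ _ _ hc hs
      have hdr : ∀ t, ‖r q1 t - r q2 t‖ ≤ 2 * κ * dist q1 q2 := by
        intro t
        have e : r q1 t - r q2 t = O.rem p q1.2 (q1.1 t) q2.2 (q2.1 t) t := by
          simp only [hr, rem, map_sub, sub_smul]
          abel
        rw [e]
        have h1 := hkey ρ hρρ p hp1 q1.2 q2.2 hq1.2.2.2 hq2.2.2.2 t (q1.1 t) (q2.1 t)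
          (hq1.2.2.1 t) (hq2.2.2.1 t)
        have h2 : ‖q1.1 t - q2.1 t‖ ≤ dist q1 q2 := by
          rw [← dist_eq_norm]
          exact (BoundedContinuousFunction.dist_coe_le_dist t).trans (le_max_left _ _)
        have h3 : |q1.2 - q2.2| ≤ dist q1 q2 := by
          rw [← Real.dist_eq]
          exact le_max_right _ _
        have h4 := mul_le_mul_of_nonneg_left h2 hκ0.le
        have h5 := mul_le_mul_of_nonneg_left h3 hκ0.le
        linarith
      have hI : C1 * ∫ u in (0 : ℝ)..1, ‖r q1 u - r q2 u‖ ≤ 1 / 2 * dist q1 q2 := by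
        have h1 : ∫ u in (0 : ℝ)..1, ‖r q1 u - r q2 u‖ ≤
            ∫ u in (0 : ℝ)..1, (2 * κ * dist q1 q2) :=
          intervalIntegral.integral_mono_on (by norm_num) (hc.norm.intervalIntegrable _ _)
            (continuous_const.intervalIntegrable _ _) fun u _ => hdr u
        rw [intervalIntegral.integral_const, smul_eq_mul, sub_zero, one_mul] at h1
        have h2 := mul_le_mul_of_nonneg_left h1 hC1.le
        refine h2.trans (le_of_eq ?_)
        rw [← hC1κ]; ring
      have hd : dist (F q1) (F q2) ≤ 1 / 2 * dist q1 q2 := by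
        refine max_le ?_ ?_
        · rw [BoundedContinuousFunction.dist_le (by positivity)]
          intro t
          have h1 := (g1 t).trans hI
          rw [dist_eq_norm]
          have e : (F q1).1 t - O.x t - ((F q2).1 t - O.x t) = (F q1).1 t - (F q2).1 t := by abel
          rw [e] at h1
          exact h1
        · have h1 := g2.trans hI
          rw [Real.dist_eq]
          have e : (F q1).2 - O.T - ((F q2).2 - O.T) = (F q1).2 - (F q2).2 := by ring
          rw [e] at h1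
          exact h1
      have e : dist (MapsTo.restrict F S S hmaps ⟨q1, hq1⟩) (MapsTo.restrict F S S hmaps ⟨q2, hq2⟩)
          = dist (F q1) (F q2) := rfl
      rw [e]
      refine hd.trans (le_of_eq ?_)
      simp only [NNReal.coe_div, NNReal.coe_one, NNReal.coe_ofNat]
      rfl
    obtain ⟨K, _, hK⟩ := bdd_of_periodic O.xcont O.hxp
    have hq0 : ((BoundedContinuousFunction.ofNormedAddCommGroup O.x O.xcont K hK, O.T) :
        (ℝ →ᵇ E) × ℝ) ∈ S := by
      refine ⟨fun t => ?_, ?_, fun t => ?_, ?_⟩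
      · simpa using O.hxp t
      · simp
      · simpa using hρ.le
      · simpa using hρ.le
    obtain ⟨q, hqS, hq, -⟩ := hcontr.exists_fixedPoint' hSc.isComplete hmaps hq0
      (edist_ne_top _ _)
    refine ⟨q.1, q.2, ?_, hqS.1, hqS.2.1, hqS.2.2.1, hqS.2.2.2⟩
    intro t
    have h1 := hF q hqS
    rw [hq] at h1
    have h2 := (h1.1 t).add (O.hx t)
    have e1 : (fun t => q.1 t - O.x t) + O.x = q.1 := by
      ext u; simp
    rw [e1] at h2
    have e2 : O.L.A t (q.1 t - O.x t) + ((q.2 - O.T) • O.L.v t + r q t) + O.T • O.f (O.x t) =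
        q.2 • (O.f (q.1 t) + p (q.1 t)) := by
      simp only [hr, rem, smul_add]
      abel
    rw [e2] at h2
    exact h2
  · -- Lipschitz estimate
    intro p1 p2 y1 s1 y2 s2 hp1 hp2 hy1 hy2
    have hp1' : Small ε1 p1 := ⟨hp1.1, fun z => (hp1.2.1 z).trans (min_le_left _ _),
      fun z => (hp1.2.2 z).trans (min_le_left _ _)⟩
    have hy1c : Continuous y1 := continuous_iff_continuousAt.2 fun t => (hy1.1 t).continuousAt
    have hy2c : Continuous y2 := continuous_iff_continuousAt.2 fun t => (hy2.1 t).continuousAt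
    set r : ℝ → E := fun t => O.rem p1 s1 (y1 t) s2 (y2 t) t + s2 • (p1 (y2 t) - p2 (y2 t)) with hr
    have hsol : O.L.Sol (fun t => y1 t - y2 t) (s1 - s2) r := by
      refine ⟨fun t => ?_, fun t => by
        simp only; rw [hy1.2.1, hy2.2.1], by
        rw [map_sub, hy1.2.2.1, hy2.2.2.1, sub_self]⟩
      have h := (hy1.1 t).sub (hy2.1 t)
      have e : O.L.A t (y1 t - y2 t) + ((s1 - s2) • O.L.v t + r t) =
          s1 • (O.f (y1 t) + p1 (y1 t)) - s2 • (O.f (y2 t) + p2 (y2 t)) := by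
        simp only [hr, rem, smul_add, smul_sub]
        abel
      rw [e]
      exact h
    have hrc : Continuous r := by
      have c1 : Continuous fun t => O.f (y1 t) := O.hf.continuous.comp hy1c
      have c2 : Continuous fun t => p1 (y1 t) := hp1.1.continuous.comp hy1c
      have c3 : Continuous fun t => O.f (y2 t) := O.hf.continuous.comp hy2c
      have c4 : Continuous fun t => p1 (y2 t) := hp1.1.continuous.comp hy2c
      have c5 : Continuous fun t => p2 (y2 t) := hp2.1.continuous.comp hy2c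
      rw [hr]
      unfold rem
      exact (((((c1.add c2).const_smul _).sub ((c3.add c4).const_smul _)).sub
        (hAc.clm_apply (hy1c.sub hy2c))).sub (hvc.const_smul _)).add
        ((c4.sub c5).const_smul _)
    set I : ℝ := ∫ u in (0 : ℝ)..1, ‖p1 (y2 u) - p2 (y2 u)‖ with hI
    have hpc : Continuous fun u => p1 (y2 u) - p2 (y2 u) :=
      (hp1.1.continuous.comp hy2c).sub (hp2.1.continuous.comp hy2c)
    have hI0 : 0 ≤ I := intervalIntegral.integral_nonneg (by norm_num) fun _ _ => norm_nonneg _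
    obtain ⟨g1, g2⟩ := hest r _ _ hrc hsol
    obtain ⟨t0, -, ht0⟩ := (isCompact_Icc (a := (0 : ℝ)) (b := 1)).exists_isMaxOn
      (by simp) (f := fun t => ‖y1 t - y2 t‖) (hy1c.sub hy2c).norm.continuousOn
    have hmax : ∀ t, ‖y1 t - y2 t‖ ≤ ‖y1 t0 - y2 t0‖ := by
      intro t
      obtain ⟨u, hu, htu⟩ := Function.Periodic.exists_mem_Ico₀ (f := fun t => y1 t - y2 t) (c := 1)
        (fun t => by simp only; rw [hy1.2.1, hy2.2.1]) one_pos t
      rw [htu]
      exact ht0 ⟨hu.1, hu.2.le⟩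
    set N : ℝ := max ‖y1 t0 - y2 t0‖ |s1 - s2| with hN
    have hs2 : |s2| ≤ 2 * O.T := by
      have h1 : |s2| ≤ |s2 - O.T| + |O.T| := by
        have := abs_add_le (s2 - O.T) O.T
        simpa using this
      rw [abs_of_pos hT] at h1
      have := hy2.2.2.2.2
      linarith
    have hrb : ∀ t, ‖r t‖ ≤ 2 * κ * N + 2 * O.T * ‖p1 (y2 t) - p2 (y2 t)‖ := by
      intro t
      have h1 := hkey ρ hρρ p1 hp1' s1 s2 hy1.2.2.2.2 hy2.2.2.2.2 t (y1 t) (y2 t)
        (hy1.2.2.2.1 t) (hy2.2.2.2.1 t)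
      have h2 : ‖s2 • (p1 (y2 t) - p2 (y2 t))‖ ≤ 2 * O.T * ‖p1 (y2 t) - p2 (y2 t)‖ := by
        rw [norm_smul, Real.norm_eq_abs]
        exact mul_le_mul_of_nonneg_right hs2 (norm_nonneg _)
      refine (norm_add_le _ _).trans (add_le_add (h1.trans ?_) h2)
      have h3 := mul_le_mul_of_nonneg_left ((hmax t).trans (le_max_left _ |s1 - s2|)) hκ0.le
      have h4 := mul_le_mul_of_nonneg_left (le_max_right ‖y1 t0 - y2 t0‖ |s1 - s2|) hκ0.le
      rw [← hN] at h3 h4
      linarith
    have hrI : C1 * ∫ u in (0 : ℝ)..1, ‖r u‖ ≤ N / 2 + 2 * C1 * O.T * I := by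
      have h1 : ∫ u in (0 : ℝ)..1, ‖r u‖ ≤
          ∫ u in (0 : ℝ)..1, (2 * κ * N + 2 * O.T * ‖p1 (y2 u) - p2 (y2 u)‖) :=
        intervalIntegral.integral_mono_on (by norm_num) (hrc.norm.intervalIntegrable _ _)
          ((continuous_const.add (hpc.norm.const_mul _)).intervalIntegrable _ _) fun u _ => hrb u
      rw [intervalIntegral.integral_add (continuous_const.intervalIntegrable _ _)
        ((hpc.norm.const_mul _).intervalIntegrable _ _), intervalIntegral.integral_const,
        intervalIntegral.integral_const_mul, smul_eq_mul, sub_zero, one_mul, ← hI] at h1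
      have h2 := mul_le_mul_of_nonneg_left h1 hC1.le
      refine h2.trans (le_of_eq ?_)
      have : C1 * (2 * κ * N + 2 * O.T * I) = C1 * (2 * κ) * N + 2 * C1 * O.T * I := by ring
      rw [this, hC1κ]; ring
    have hNle : N ≤ 4 * C1 * O.T * I := by
      have h1 : N ≤ N / 2 + 2 * C1 * O.T * I :=
        max_le ((g1 t0).trans hrI) (g2.trans hrI)
      linarith
    exact ⟨fun t => (hmax t).trans ((le_max_left _ _).trans hNle), (le_max_right _ _).trans hNle⟩

end Orb

end H340Sync
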