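import Pool.Agent.Helper340_sync.Loc

/-!
Resting nodes: a dimension count.  Then the relation of equal cells is balanced, and it extends to
all times.
-/

open Set MeasureTheory Filter Topology intervalIntegral

namespace H340Sync

namespace Network

variable {N : Network} {V : N.NT → Type} [∀ θ, NormedAddCommGroup (V θ)]
  [∀ θ, NormedSpace ℝ (V θ)] [∀ θ, FiniteDimensional ℝ (V θ)]

namespace Loc

variable (L : Loc N V)

theorem mem0 : L.t0 ∈ Metric.ball L.t0 L.r := Metric.mem_ball_self L.hr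

/-- matching input states at time `t0` -/
def Mat (θ : N.NT) (c d : N.Node θ) : Prop :=
  ∃ β : N.InIso c d, pull β (inputState d (L.y L.t0)) = inputState c (L.y L.t0)

theorem Mat.E {L : Loc N V} {θ : N.NT} {c d : N.Node θ} (h : L.Mat θ c d) : L.E θ c d := by
  obtain ⟨β, hβ⟩ := h
  rw [L.hE _ L.mem0]
  exact (congrArg (fun ζ : N.InSp V c => ζ.1) hβ).symm

theorem Mat.refl (θ : N.NT) (c : N.Node θ) : L.Mat θ c c := ⟨InIso.refl c, rfl⟩

theorem Mat.symm {L : Loc N V} {θ : N.NT} {c d : N.Node θ} (h : L.Mat θ c d) : L.Mat θ d c := by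
  obtain ⟨β, hβ⟩ := h
  exact ⟨β.symm, pull_symm β _ _ hβ⟩

theorem Mat.trans {L : Loc N V} {θ : N.NT} {c d e : N.Node θ} (h : L.Mat θ c d)
    (h' : L.Mat θ d e) : L.Mat θ c e := by
  obtain ⟨β, hβ⟩ := h
  obtain ⟨γ, hγ⟩ := h'
  exact ⟨β.trans γ, by rw [pull_trans, hγ, hβ]⟩

theorem E_R {θ : N.NT} {c d : N.Node θ} (h : L.E θ c d) : L.R θ c ↔ L.R θ d := by
  rw [L.hR _ L.mem0, L.hR _ L.mem0]
  have := eq_of_deriv (L.hy L.t0) L.mem0 θ c d (fun u hu => (L.hE u hu θ c d).1 h)
  have h2 : L.g (L.y L.t0) θ c = L.g (L.y L.t0) θ d :=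
    smul_right_injective _ L.hs.ne' this
  rw [h2]

/-- The polydiagonal of `E` on the resting nodes. -/
def D : Submodule ℝ (N.State V) where
  carrier := {z | (∀ θ c d, L.E θ c d → z θ c = z θ d) ∧ ∀ θ c, ¬ L.R θ c → z θ c = 0}
  add_mem' := by
    rintro x y ⟨h1, h2⟩ ⟨h3, h4⟩
    refine ⟨fun θ c d h => ?_, fun θ c h => ?_⟩
    · change x θ c + y θ c = x θ d + y θ d
      rw [h1 θ c d h, h3 θ c d h]
    · change x θ c + y θ c = 0
      rw [h2 θ c h, h4 θ c h, add_zero]
  zero_mem' := ⟨fun _ _ _ _ => rfl, fun _ _ _ => rfl⟩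
  smul_mem' := by
    rintro a x ⟨h1, h2⟩
    refine ⟨fun θ c d h => ?_, fun θ c h => ?_⟩
    · change a • x θ c = a • x θ d
      rw [h1 θ c d h]
    · change a • x θ c = 0
      rw [h2 θ c h, smul_zero]

/-- The polydiagonal of `Mat` on the resting nodes. -/
def Kk : Submodule ℝ (N.State V) where
  carrier := {z | (∀ θ c d, L.Mat θ c d → z θ c = z θ d) ∧ ∀ θ c, ¬ L.R θ c → z θ c = 0}
  add_mem' := by
    rintro x y ⟨h1, h2⟩ ⟨h3, h4⟩
    refine ⟨fun θ c d h => ?_, fun θ c h => ?_⟩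
    · change x θ c + y θ c = x θ d + y θ d
      rw [h1 θ c d h, h3 θ c d h]
    · change x θ c + y θ c = 0
      rw [h2 θ c h, h4 θ c h, add_zero]
  zero_mem' := ⟨fun _ _ _ _ => rfl, fun _ _ _ => rfl⟩
  smul_mem' := by
    rintro a x ⟨h1, h2⟩
    refine ⟨fun θ c d h => ?_, fun θ c h => ?_⟩
    · change a • x θ c = a • x θ d
      rw [h1 θ c d h]
    · change a • x θ c = 0
      rw [h2 θ c h, smul_zero]

theorem D_le_Kk : L.D ≤ L.Kk := fun _ hz => ⟨fun θ c d h => hz.1 θ c d h.E, hz.2⟩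

open Classical in
/-- Restriction to the resting nodes. -/
noncomputable def πR : N.State V →ₗ[ℝ] N.State V where
  toFun z := fun θ c => if L.R θ c then z θ c else 0
  map_add' x y := by
    funext θ c
    change (if L.R θ c then x θ c + y θ c else 0) =
      (if L.R θ c then x θ c else 0) + (if L.R θ c then y θ c else 0)
    split_ifs
    · rfl
    · rw [add_zero]
  map_smul' a x := by
    funext θ c
    change (if L.R θ c then a • x θ c else 0) = a • (if L.R θ c then x θ c else 0)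
    split_ifs
    · rfl
    · rw [smul_zero]

theorem πR_pos {θ : N.NT} {c : N.Node θ} (h : L.R θ c) (z : N.State V) : L.πR z θ c = z θ c :=
  if_pos h

theorem πR_neg {θ : N.NT} {c : N.Node θ} (h : ¬ L.R θ c) (z : N.State V) : L.πR z θ c = 0 :=
  if_neg h

/-- the derivative of the vector field at the point of the orbit at time `t0` -/
noncomputable def A : N.State V →L[ℝ] N.State V := fderiv ℝ L.g (L.y L.t0)

theorem hasFDerivAt_A : HasFDerivAt L.g L.A (L.y L.t0) :=
  (L.hg.differentiable one_ne_zero _).hasFDerivAt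

theorem A_πR [∀ θ, Nontrivial (V θ)] {θ : N.NT} {c : N.Node θ} (hc : L.R θ c) (w : N.State V) :
    L.A w θ c = L.A (L.πR w) θ c := by
  have hder : ∀ w : N.State V,
      HasDerivAt (fun s : ℝ => L.g (L.y L.t0 + s • w) θ c) (L.A w θ c) 0 := by
    intro w
    have h1 : HasDerivAt (fun s : ℝ => L.y L.t0 + s • w) w 0 := by
      have := ((hasDerivAt_id (0 : ℝ)).smul_const w).const_add (L.y L.t0)
      simpa using this
    have h2 : HasFDerivAt L.g L.A (L.y L.t0 + (0 : ℝ) • w) := by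
      rw [zero_smul, add_zero]; exact L.hasFDerivAt_A
    exact hasDerivAt_coord (h2.comp_hasDerivAt (0 : ℝ) h1) θ c
  have heq : (fun s : ℝ => L.g (L.y L.t0 + s • w) θ c) =
      fun s : ℝ => L.g (L.y L.t0 + s • L.πR w) θ c := by
    funext s
    obtain ⟨F, hF, -⟩ := L.adm
    rw [hF, hF]
    congr 1
    refine Prod.ext ?_ ?_
    · change L.y L.t0 θ c + s • w θ c = L.y L.t0 θ c + s • L.πR w θ c
      rw [L.πR_pos hc]
    · funext a e
      change L.y L.t0 _ _ + s • w (N.src a) (N.inTail e) =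
        L.y L.t0 _ _ + s • L.πR w (N.src a) (N.inTail e)
      rw [L.πR_pos (L.R_closed hc a e)]
  have h1 := hder w
  rw [heq] at h1
  exact h1.unique (hder (L.πR w))

/-- The subspace of reachable forcings. -/
noncomputable def S : Submodule ℝ (N.State V) := L.D.map (L.πR ∘ₗ (L.A : N.State V →ₗ[ℝ] N.State V))

theorem S_closed : IsClosed (L.S : Set (N.State V)) := L.S.closed_of_finiteDimensional

theorem mem_S [∀ θ, Nontrivial (V θ)] {b : N.State V → N.State V} (hb1 : ContDiff ℝ 1 b)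
    (hb2 : AdmissibleC1 b) (hb3 : BL b) : L.πR (b (L.y L.t0)) ∈ L.S := by
  rw [← SetLike.mem_coe, Metric.mem_of_closed' L.S_closed]
  intro ε hε
  obtain ⟨η0, hη0, hpert⟩ := L.pert b hb1 hb2 hb3
  set J : ℝ := ∫ u in (0 : ℝ)..1, ‖b (L.y u)‖ with hJ
  have hJ0 : 0 ≤ J := intervalIntegral.integral_nonneg (by norm_num) fun _ _ => norm_nonneg _
  have hCJ : 0 ≤ L.C * J := mul_nonneg L.hC hJ0
  set κ : ℝ := ε / (4 * (L.C * J + 1)) with hκ
  have hκ0 : 0 < κ := by positivity
  have hκI : κ * (L.C * J) ≤ ε / 4 := by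
    rw [hκ, div_mul_eq_mul_div, div_le_div_iff₀ (by positivity) (by positivity)]
    nlinarith
  have hlit := L.hasFDerivAt_A.isLittleO.def hκ0
  obtain ⟨δ1, hδ1, h1⟩ := Metric.eventually_nhds_iff.1 hlit
  obtain ⟨δ2, hδ2, h2⟩ := Metric.continuous_iff.1 hb1.continuous (L.y L.t0) (ε / 4) (by positivity)
  obtain ⟨η, hη, hηη, hηδ⟩ := exists_small hη0 (lt_min hδ1 hδ2) hCJ
  obtain ⟨z, s', hs', hz1, hz2, hz3, hz4⟩ := hpert η hη hηη
  set w : N.State V := z L.t0 - L.y L.t0 with hw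
  have hwn : ‖w‖ ≤ η * (L.C * J) := hz2 L.t0
  have hwd : dist (z L.t0) (L.y L.t0) < min δ1 δ2 := by
    rw [dist_eq_norm]; exact hwn.trans_lt hηδ
  have h1' := h1 (hwd.trans_le (min_le_left _ _))
  have h2' := h2 (z L.t0) (hwd.trans_le (min_le_right _ _))
  rw [dist_eq_norm] at h2'
  have hwD : L.πR w ∈ L.D := by
    refine ⟨fun θ c d h => ?_, fun θ c h => L.πR_neg h _⟩
    by_cases hc : L.R θ c
    · rw [L.πR_pos hc, L.πR_pos ((L.E_R h).1 hc)]
      change z L.t0 θ c - L.y L.t0 θ c = z L.t0 θ d - L.y L.t0 θ d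
      rw [hz3 _ L.mem0 θ c d h, (L.hE _ L.mem0 θ c d).1 h]
    · rw [L.πR_neg hc, L.πR_neg (fun h' => hc ((L.E_R h).2 h'))]
  refine ⟨(L.πR ∘ₗ (L.A : N.State V →ₗ[ℝ] N.State V)) ((-η⁻¹) • L.πR w),
    Submodule.mem_map_of_mem (L.D.smul_mem _ hwD), ?_⟩
  rw [dist_eq_norm]
  refine (norm_le_of_coord (K := ε / 2) (by positivity) fun θ c => ?_).trans_lt (by linarith)
  by_cases hc : L.R θ c
  · have e1 : (L.πR (b (L.y L.t0)) -
        (L.πR ∘ₗ (L.A : N.State V →ₗ[ℝ] N.State V)) ((-η⁻¹) • L.πR w)) θ c =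
        b (L.y L.t0) θ c + η⁻¹ • L.A w θ c := by
      rw [L.A_πR hc w]
      have e0 : L.A ((-η⁻¹) • L.πR w) θ c = -(η⁻¹ • L.A (L.πR w) θ c) := by
        rw [map_smul, neg_smul]
        rfl
      simp only [Pi.sub_apply, L.πR_pos hc, LinearMap.comp_apply, ContinuousLinearMap.coe_coe]
      rw [e0, sub_neg_eq_add]
    rw [e1]
    have e2 : L.g (z L.t0) θ c = -(η • b (z L.t0) θ c) := by
      have := hz4 _ L.mem0 θ c hc
      exact eq_neg_of_add_eq_zero_left this
    have e3 : L.g (L.y L.t0) θ c = 0 := (L.hR _ L.mem0 θ c).1 hc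
    have e4 : ‖-(η • b (z L.t0) θ c) - L.A w θ c‖ ≤ κ * (η * (L.C * J)) := by
      have h3 := (norm_coord_le _ θ c).trans h1'
      simp only [Pi.sub_apply] at h3
      rw [e2, e3, sub_zero] at h3
      exact h3.trans (mul_le_mul_of_nonneg_left hwn hκ0.le)
    have e5 : b (L.y L.t0) θ c + η⁻¹ • L.A w θ c = (b (L.y L.t0) - b (z L.t0)) θ c -
        η⁻¹ • (-(η • b (z L.t0) θ c) - L.A w θ c) := by
      simp only [Pi.sub_apply, smul_sub, smul_neg, smul_smul, inv_mul_cancel₀ hη.ne', one_smul]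
      abel
    rw [e5]
    refine (norm_sub_le _ _).trans ?_
    have e6 : ‖(b (L.y L.t0) - b (z L.t0)) θ c‖ ≤ ε / 4 := by
      refine (norm_coord_le _ θ c).trans ?_
      rw [norm_sub_rev]; exact h2'.le
    have e7 : ‖η⁻¹ • (-(η • b (z L.t0) θ c) - L.A w θ c)‖ ≤ ε / 4 := by
      rw [norm_smul, Real.norm_eq_abs, abs_of_pos (inv_pos.2 hη)]
      refine (mul_le_mul_of_nonneg_left e4 (inv_pos.2 hη).le).trans ?_
      have : η⁻¹ * (κ * (η * (L.C * J))) = κ * (L.C * J) := by field_simp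
      rw [this]; exact hκI
    linarith
  · have e1 : (L.πR (b (L.y L.t0)) -
        (L.πR ∘ₗ (L.A : N.State V →ₗ[ℝ] N.State V)) ((-η⁻¹) • L.πR w)) θ c = 0 := by
      simp only [Pi.sub_apply, L.πR_neg hc, LinearMap.comp_apply, sub_zero]
    rw [e1, norm_zero]
    positivity

open Classical in
/-- multiplicities -/
noncomputable def m (θ : N.NT) (d : N.Node θ) : ℝ :=
  ∑ c : N.Node θ, ∑ β : N.InIso c d,
    (if pull β (inputState d (L.y L.t0)) = inputState c (L.y L.t0) then (1 : ℝ) else 0)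

theorem m_pos (θ : N.NT) (d : N.Node θ) : 0 < L.m θ d := by
  classical
  unfold m
  refine Finset.sum_pos' (fun c _ => Finset.sum_nonneg fun β _ => by split_ifs <;> norm_num)
    ⟨d, Finset.mem_univ _, ?_⟩
  refine Finset.sum_pos' (fun β _ => by split_ifs <;> norm_num)
    ⟨InIso.refl d, Finset.mem_univ _, ?_⟩
  rw [pull_refl, if_pos rfl]
  norm_num

/-- multiplication by the multiplicities -/
noncomputable def μm : N.State V →ₗ[ℝ] N.State V where
  toFun z := fun θ d => L.m θ d • z θ d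
  map_add' x y := by
    funext θ d
    exact smul_add _ _ _
  map_smul' a x := by
    funext θ d
    change L.m θ d • (a • x θ d) = a • (L.m θ d • x θ d)
    rw [smul_comm]

theorem μm_inj : Function.Injective L.μm := by
  rw [← LinearMap.ker_eq_bot, LinearMap.ker_eq_bot']
  intro z hz
  funext θ d
  have := congrFun (congrFun hz θ) d
  have h2 : L.m θ d • z θ d = 0 := this
  exact (smul_eq_zero.1 h2).resolve_left (L.m_pos θ d).ne'

theorem μm_mem_S [∀ θ, Nontrivial (V θ)] {z : N.State V} (hz : z ∈ L.Kk) : L.μm z ∈ L.S := by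
  classical
  set ξ : ∀ θ (c : N.Node θ), N.InSp V c := fun θ c => inputState c (L.y L.t0) with hξ
  have hlim := bn_tendsto ξ z (L.y L.t0)
  have hcontπ : Continuous L.πR := L.πR.continuous_of_finiteDimensional
  have h1 := (hcontπ.tendsto _).comp hlim
  have h2 : L.πR (blim ξ z (L.y L.t0)) ∈ (L.S : Set (N.State V)) :=
    L.S_closed.mem_of_tendsto h1 (Eventually.of_forall fun n =>
      L.mem_S (bn_contDiff ξ z n) (bn_adm ξ z n) (bn_BL ξ z n))
  have h3 : L.πR (blim ξ z (L.y L.t0)) = L.μm z := by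
    funext θ d
    by_cases hd : L.R θ d
    · rw [L.πR_pos hd]
      change _ = L.m θ d • z θ d
      unfold blim m
      rw [Finset.sum_smul]
      refine Finset.sum_congr rfl fun c _ => ?_
      rw [Finset.sum_smul]
      refine Finset.sum_congr rfl fun β _ => ?_
      by_cases h : pull β (inputState d (L.y L.t0)) = inputState c (L.y L.t0)
      · have hM : L.Mat θ c d := ⟨β, h⟩
        rw [hz.1 θ c d hM]
      · rw [if_neg h, zero_smul, zero_smul]
    · rw [L.πR_neg hd]
      change _ = L.m θ d • z θ d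
      rw [hz.2 θ d hd, smul_zero]
  rw [← h3]
  exact h2

theorem D_eq_Kk [∀ θ, Nontrivial (V θ)] : L.D = L.Kk := by
  refine Submodule.eq_of_le_of_finrank_le L.D_le_Kk ?_
  have h1 : Module.finrank ℝ L.Kk ≤ Module.finrank ℝ L.S := by
    refine LinearMap.finrank_le_finrank_of_injective
      (f := (L.μm.restrict (p := L.Kk) (q := L.S) fun z hz => L.μm_mem_S hz)) ?_
    intro x y hxy
    apply Subtype.ext
    apply L.μm_inj
    exact congrArg Subtype.val hxy
  exact h1.trans (Submodule.finrank_map_le _ _)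

theorem match_resting [∀ θ, Nontrivial (V θ)] {θ : N.NT} {c d : N.Node θ} (hc : L.R θ c)
    (hcd : L.E θ c d) : L.Mat θ c d := by
  classical
  obtain ⟨u0, hu0⟩ := exists_ne (0 : V θ)
  set z : N.State V := Pi.single θ (fun c' => if L.Mat θ c c' then u0 else 0) with hz
  have hzK : z ∈ L.Kk := by
    refine ⟨fun θ' a b hab => ?_, fun θ' a ha => ?_⟩
    · by_cases hθ : θ' = θ
      · subst hθ
        simp only [hz, Pi.single_eq_same]
        by_cases h : L.Mat θ' c a
        · rw [if_pos h, if_pos (h.trans hab)]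
        · rw [if_neg h, if_neg fun h' => h (h'.trans hab.symm)]
      · simp only [hz, Pi.single_eq_of_ne hθ]
        rfl
    · by_cases hθ : θ' = θ
      · subst hθ
        simp only [hz, Pi.single_eq_same]
        by_cases h : L.Mat θ' c a
        · exact absurd ((L.E_R h.E).1 hc) ha
        · rw [if_neg h]
      · simp only [hz, Pi.single_eq_of_ne hθ]
        rfl
  rw [← L.D_eq_Kk] at hzK
  have h1 := hzK.1 θ c d hcd
  simp only [hz, Pi.single_eq_same] at h1
  rw [if_pos (Mat.refl L θ c)] at h1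
  by_contra hno
  rw [if_neg hno] at h1
  exact hu0 h1

/-- **The decided relation is balanced.** -/
theorem balanced [∀ θ, Nontrivial (V θ)] (θ : N.NT) (c d : N.Node θ) (hcd : L.E θ c d) :
    ∃ β : N.InIso c d, ∀ (a : N.AT) (e : N.In c a),
      L.E (N.src a) (N.inTail e) (N.inTail (β a e)) := by
  by_cases hc : L.R θ c
  · obtain ⟨β, hβ⟩ := L.match_resting hc hcd
    refine ⟨β, fun a e => ?_⟩
    rw [L.hE _ L.mem0]
    have h2 := congrArg (fun ζ : N.InSp V c => ζ.2 a e) hβ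
    exact h2.symm
  · exact L.match_moving hc hcd

/-- a representative of the class of a node -/
noncomputable def rep (θ : N.NT) (c : N.Node θ) : N.Node θ :=
  @Classical.epsilon (N.Node θ) ⟨c⟩ (fun d => L.y L.t0 θ d = L.y L.t0 θ c)

theorem rep_spec (θ : N.NT) (c : N.Node θ) : L.E θ c (L.rep θ c) := by
  rw [L.hE _ L.mem0]
  have : ∃ d, L.y L.t0 θ d = L.y L.t0 θ c := ⟨c, rfl⟩
  exact (Classical.epsilon_spec this).symm

theorem rep_eq {θ : N.NT} {c d : N.Node θ} (h : L.E θ c d) : L.rep θ c = L.rep θ d := by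
  rw [L.hE _ L.mem0] at h
  unfold rep
  rw [h]

/-- the retraction onto the polydiagonal -/
noncomputable def ret (x : N.State V) : N.State V := fun θ c => x θ (L.rep θ c)

theorem ret_norm (x : N.State V) : ‖L.ret x‖ ≤ ‖x‖ :=
  norm_le_of_coord (norm_nonneg _) fun θ c => norm_coord_le x θ (L.rep θ c)

theorem g_ret [∀ θ, Nontrivial (V θ)] (x : N.State V) (θ : N.NT) (c : N.Node θ) :
    L.g (L.ret x) θ c = L.g (L.ret x) θ (L.rep θ c) := by
  obtain ⟨β, hβ⟩ := L.balanced θ c (L.rep θ c) (L.rep_spec θ c)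
  obtain ⟨F, hF, hF2⟩ := L.adm
  rw [hF, hF, hF2 θ c (L.rep θ c) β]
  congr 1
  refine Prod.ext ?_ ?_
  · change L.ret x θ c = L.ret x θ (L.rep θ c)
    exact congrArg (x θ) (L.rep_eq (L.rep_spec θ c))
  · funext a e
    change L.ret x (N.src a) (N.inTail e) = L.ret x (N.src a) (N.inTail (β a e))
    unfold ret
    rw [L.rep_eq (hβ a e)]

/-- Equality of cells near `t0` extends to all times. -/
theorem sync_all [∀ θ, Nontrivial (V θ)] (θ : N.NT) (c d : N.Node θ) (hcd : L.E θ c d) (t : ℝ) :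
    L.y t θ c = L.y t θ d := by
  obtain ⟨K, Λ, hK0, hΛ0, hK, hlip⟩ := L.lip
  -- the difference to the retraction
  set w : ℝ → N.State V := fun t => L.y t - L.ret (L.y t) with hw
  have hwd : ∀ t, HasDerivAt w (L.s • L.g (L.y t) - L.ret (L.s • L.g (L.y t))) t := by
    intro t
    rw [hasDerivAt_pi]
    intro θ
    rw [hasDerivAt_pi]
    intro c
    exact (hasDerivAt_coord (L.hy t) θ c).sub (hasDerivAt_coord (L.hy t) θ (L.rep θ c))
  have hw0 : w L.t0 = 0 := by
    funext θ c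
    change L.y L.t0 θ c - L.y L.t0 θ (L.rep θ c) = 0
    rw [sub_eq_zero]
    exact (L.hE _ L.mem0 _ _ _).1 (L.rep_spec θ c)
  have hbound : ∀ t, ‖L.s • L.g (L.y t) - L.ret (L.s • L.g (L.y t))‖ ≤
      (2 * L.s * Λ) * ‖w t‖ + 0 := by
    intro t
    rw [add_zero]
    have hs := L.hs
    refine norm_le_of_coord (by positivity) fun θ c => ?_
    change ‖L.s • L.g (L.y t) θ c - L.s • L.g (L.y t) θ (L.rep θ c)‖ ≤ _
    have hl : ‖L.g (L.y t) - L.g (L.ret (L.y t))‖ ≤ Λ * ‖w t‖ :=
      hlip _ _ (by linarith [hK t]) (by linarith [hK t, L.ret_norm (L.y t)])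
    have e1 := (norm_coord_le (L.g (L.y t) - L.g (L.ret (L.y t))) θ c).trans hl
    have e2 := (norm_coord_le (L.g (L.y t) - L.g (L.ret (L.y t))) θ (L.rep θ c)).trans hl
    have e3 : L.s • L.g (L.y t) θ c - L.s • L.g (L.y t) θ (L.rep θ c) =
        L.s • ((L.g (L.y t) - L.g (L.ret (L.y t))) θ c -
          (L.g (L.y t) - L.g (L.ret (L.y t))) θ (L.rep θ c)) := by
      simp only [Pi.sub_apply]
      rw [L.g_ret (L.y t) θ c, ← smul_sub]
      congr 1
      abel
    rw [e3, norm_smul, Real.norm_eq_abs, abs_of_pos hs]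
    have e4 := norm_sub_le ((L.g (L.y t) - L.g (L.ret (L.y t))) θ c)
      ((L.g (L.y t) - L.g (L.ret (L.y t))) θ (L.rep θ c))
    have e5 : ‖(L.g (L.y t) - L.g (L.ret (L.y t))) θ c -
      (L.g (L.y t) - L.g (L.ret (L.y t))) θ (L.rep θ c)‖ ≤ 2 * (Λ * ‖w t‖) := by linarith
    have e6 := mul_le_mul_of_nonneg_left e5 hs.le
    linarith
  have hforward : ∀ t, L.t0 ≤ t → w t = 0 := by
    intro t ht
    have h1 := norm_le_gronwallBound_of_norm_deriv_right_le (f := w)
      (f' := fun t => L.s • L.g (L.y t) - L.ret (L.s • L.g (L.y t))) (δ := 0)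
      (K := 2 * L.s * Λ) (ε := 0) (a := L.t0) (b := t)
      (fun u _ => (hwd u).continuousAt.continuousWithinAt)
      (fun u _ => (hwd u).hasDerivWithinAt) (by rw [hw0, norm_zero]) (fun u _ => hbound u)
      t ⟨ht, le_rfl⟩
    rw [gronwallBound_ε0_δ0] at h1
    exact norm_le_zero_iff.1 h1
  have hper : ∀ (n : ℕ) t, L.y (t + n) = L.y t := by
    intro n
    induction n with
    | zero => intro t; simp
    | succ k ih =>
      intro t
      have : t + ((k + 1 : ℕ) : ℝ) = (t + k) + 1 := by push_cast; ring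
      rw [this, L.hyp, ih]
  obtain ⟨n, hn⟩ := exists_nat_ge (L.t0 - t)
  have h1 := hforward (t + n) (by linarith)
  have h2 : ∀ c : N.Node θ, L.y t θ c = L.y t θ (L.rep θ c) := by
    intro c
    have h3 := congrFun (congrFun h1 θ) c
    have h4 : L.y (t + n) θ c - L.y (t + n) θ (L.rep θ c) = 0 := h3
    rw [hper n t, sub_eq_zero] at h4
    exact h4
  rw [h2 c, h2 d, L.rep_eq hcd]

end Loc

end Network

end H340Sync
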